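import Pool.Agent.NRW.St
import Pool.Agent.SI.W

set_option autoImplicit false

/-!
# NRW / Sap

From the smooth weight to sharp intervals.  `δ = L / (X log^(A+2) X)`.  The sum over `(x, x + L]` is
compared with the integral of the smooth sums over `[log x, log (x + L)]`; the edges contain at most
`9 X δ` integers.  The rest is the inequality of Cauchy and Schwarz and the fact that every `y` lies
in at most `L` of the intervals `[log x, log (x + L)]`.
-/

namespace Pool.Agent.NRW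

open Finset Filter
open Pool.Agent.GBQ (lam)
open Pool.Agent.SI (nit DP fac cof siz IsW Wd)

lemma sap_integrable {w : ℝ → ℝ} (hw : IsW w) : MeasureTheory.Integrable w := by
  have h1 : HasCompactSupport w := by
    apply HasCompactSupport.intro (isCompact_Icc (a := (0 : ℝ)) (b := 1))
    intro x hx
    by_contra hcon
    exact hx ⟨(hw.supp x hcon).1.le, (hw.supp x hcon).2.le⟩
  exact hw.smooth.continuous.integrable_of_hasCompactSupport h1

/-- the integral of the weight over an interval -/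
noncomputable def sapPhi (w : ℝ → ℝ) (δ v a b : ℝ) : ℝ := ∫ y in a..b, Wd w δ (v - y)

lemma sap_phi_eq {w : ℝ → ℝ} {δ : ℝ} (hδ : 0 < δ) (v a b : ℝ) :
    sapPhi w δ v a b = ∫ x in ((v - b) / δ)..((v - a) / δ), w x := by
  unfold sapPhi Wd
  rw [intervalIntegral.integral_comp_sub_left (fun u => w (u / δ) / δ) v,
    intervalIntegral.integral_div, intervalIntegral.integral_comp_div (fun u => w u) hδ.ne',
    smul_eq_mul, mul_div_cancel_left₀ _ hδ.ne']

lemma sap_phi_nonneg {w : ℝ → ℝ} (hw : IsW w) {δ : ℝ} (hδ : 0 < δ) {v a b : ℝ} (hab : a ≤ b) :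
    0 ≤ sapPhi w δ v a b := by
  rw [sap_phi_eq hδ]
  apply intervalIntegral.integral_nonneg
  · exact div_le_div_of_nonneg_right (by linarith) hδ.le
  · intro x _
    exact hw.nonneg x

lemma sap_phi_le {w : ℝ → ℝ} (hw : IsW w) {δ : ℝ} (hδ : 0 < δ) {v a b : ℝ} (hab : a ≤ b) :
    sapPhi w δ v a b ≤ 1 := by
  rw [sap_phi_eq hδ, intervalIntegral.integral_of_le
    (div_le_div_of_nonneg_right (by linarith) hδ.le), ← hw.int]
  exact MeasureTheory.setIntegral_le_integral (sap_integrable hw)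
    (Filter.Eventually.of_forall fun x => hw.nonneg x)

lemma sap_phi_zero {w : ℝ → ℝ} (hw : IsW w) {δ : ℝ} (hδ : 0 < δ) {v a b : ℝ} (hab : a ≤ b)
    (h : v ≤ a ∨ b + δ ≤ v) : sapPhi w δ v a b = 0 := by
  unfold sapPhi
  have h1 : ∀ y ∈ Set.uIcc a b, Wd w δ (v - y) = 0 := by
    intro y hy
    rw [Set.uIcc_of_le hab] at hy
    unfold Wd
    by_contra hcon
    have h2 : w ((v - y) / δ) ≠ 0 := fun h3 => hcon (by rw [h3, zero_div])
    obtain ⟨h3, h4⟩ := hw.supp _ h2
    rw [div_lt_one hδ] at h4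
    have h5 : 0 < v - y := by
      by_contra h6
      exact absurd h3 (not_lt.2 (div_nonpos_of_nonpos_of_nonneg (not_lt.1 h6) hδ.le))
    rcases h with h | h
    · linarith [hy.1]
    · linarith [hy.2]
  rw [intervalIntegral.integral_congr (g := fun _ => (0 : ℝ)) h1]
  simp

lemma sap_phi_one {w : ℝ → ℝ} (hw : IsW w) {δ : ℝ} (hδ : 0 < δ) {v a b : ℝ}
    (h1 : a + δ ≤ v) (h2 : v ≤ b) : sapPhi w δ v a b = 1 := by
  rw [sap_phi_eq hδ, ← hw.int]
  apply intervalIntegral.integral_eq_integral_of_support_subset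
  intro x hx
  obtain ⟨h3, h4⟩ := hw.supp x hx
  constructor
  · exact lt_of_le_of_lt (div_nonpos_of_nonpos_of_nonneg (by linarith) hδ.le) h3
  · have h5 : 1 ≤ (v - a) / δ := by
      rw [le_div_iff₀ hδ]
      linarith
    linarith

lemma sap_exp {δ : ℝ} (h0 : 0 < δ) (h1 : δ ≤ 1) : Real.exp δ ≤ 1 + 2 * δ := by
  have h4 := Real.exp_bound' h0.le h1 (n := 2) (by norm_num)
  simp only [Finset.sum_range_succ, Finset.sum_range_zero] at h4
  norm_num at h4
  nlinarith

/-- the number of integers near an edge -/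
lemma sap_card (s : Finset ℕ) (m : ℕ) (hm : 1 ≤ m) {δ : ℝ} (h0 : 0 < δ) (h1 : δ ≤ 1) :
    ((s.filter (fun n : ℕ => m < n ∧ Real.log n < Real.log m + δ)).card : ℝ) ≤ 2 * m * δ := by
  have hm0 : (0 : ℝ) < m := by exact_mod_cast hm
  have h2 : s.filter (fun n : ℕ => m < n ∧ Real.log n < Real.log m + δ) ⊆
      Ioc m (m + ⌊2 * (m : ℝ) * δ⌋₊) := by
    intro n hn
    rw [mem_filter] at hn
    obtain ⟨_, h3, h4⟩ := hn
    have hn0 : (0 : ℝ) < n := by exact_mod_cast (by omega : 0 < n)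
    rw [mem_Ioc]
    refine ⟨h3, ?_⟩
    have h5 := Real.exp_lt_exp.2 h4
    rw [Real.exp_log hn0, Real.exp_add, Real.exp_log hm0] at h5
    have h6 : (n : ℝ) ≤ m + 2 * m * δ := by
      have := mul_le_mul_of_nonneg_left (sap_exp h0 h1) hm0.le
      linarith
    have h7 : ((n - m : ℕ) : ℝ) ≤ 2 * m * δ := by
      rw [Nat.cast_sub h3.le]
      linarith
    have h8 := Nat.le_floor h7
    omega
  have h3 := card_le_card h2
  rw [Nat.card_Ioc, Nat.add_sub_cancel_left] at h3
  calc ((s.filter (fun n : ℕ => m < n ∧ Real.log n < Real.log m + δ)).card : ℝ)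
      ≤ (⌊2 * (m : ℝ) * δ⌋₊ : ℝ) := by exact_mod_cast h3
    _ ≤ 2 * m * δ := Nat.floor_le (by positivity)

/-- the smooth sum -/
noncomputable def sapS (w : ℝ → ℝ) (δ : ℝ) (q b X : ℕ) (y : ℝ) : ℝ :=
  ∑ n ∈ Icc X (3 * X), ci q b lam n * Wd w δ (Real.log n - y)

lemma sap_cont {w : ℝ → ℝ} (hw : IsW w) (δ : ℝ) (q b X : ℕ) : Continuous (sapS w δ q b X) := by
  have hwc : Continuous w := hw.smooth.continuous
  unfold sapS Wd
  fun_prop

/-- the sharp sum and the integral of the smooth sums -/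
lemma sap_edge {w : ℝ → ℝ} (hw : IsW w) {δ : ℝ} (h0 : 0 < δ) (h1 : δ ≤ 1) (q b X x L : ℕ)
    (hX : 1 ≤ X) (hx : X ≤ x) (hx2 : x ≤ 2 * X) (hL : 2 * L ≤ X) :
    |(∑ n ∈ (Ioc x (x + L)).filter (fun n => n % q = b % q), lam n) -
      ∫ y in (Real.log x)..(Real.log ((x + L : ℕ) : ℝ)), sapS w δ q b X y| ≤
      9 * (X * δ) * Real.log (3 * X) := by
  have hX0 : (1 : ℝ) ≤ X := by exact_mod_cast hX
  have hx0 : (0 : ℝ) < x := by exact_mod_cast (by omega : 0 < x)
  have hxL : (x : ℝ) ≤ ((x + L : ℕ) : ℝ) := by exact_mod_cast Nat.le_add_right x L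
  have hab : Real.log x ≤ Real.log ((x + L : ℕ) : ℝ) := Real.log_le_log hx0 hxL
  have hwc : Continuous w := hw.smooth.continuous
  have e1 : ∫ y in (Real.log x)..(Real.log ((x + L : ℕ) : ℝ)), sapS w δ q b X y =
      ∑ n ∈ Icc X (3 * X), ci q b lam n *
        sapPhi w δ (Real.log n) (Real.log x) (Real.log ((x + L : ℕ) : ℝ)) := by
    unfold sapS
    rw [intervalIntegral.integral_finsetSum]
    · refine sum_congr rfl fun n _ => ?_
      rw [intervalIntegral.integral_const_mul]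
      rfl
    · intro n _
      apply Continuous.intervalIntegrable
      unfold Wd
      fun_prop
  have e2 : ∑ n ∈ (Ioc x (x + L)).filter (fun n => n % q = b % q), lam n =
      ∑ n ∈ Icc X (3 * X), ci q b lam n * (if x < n ∧ n ≤ x + L then 1 else 0) := by
    have e3 : ∀ n, ci q b lam n * (if x < n ∧ n ≤ x + L then (1 : ℝ) else 0) =
        if (x < n ∧ n ≤ x + L) ∧ n % q = b % q then lam n else 0 := by
      intro n
      unfold ci
      by_cases h2 : x < n ∧ n ≤ x + L <;> by_cases h3 : n % q = b % q <;> simp [h2, h3]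
    rw [sum_congr rfl fun n _ => e3 n, ← sum_filter]
    apply sum_congr _ fun _ _ => rfl
    ext n
    simp only [mem_filter, mem_Ioc, mem_Icc]
    constructor
    · rintro ⟨⟨h2, h3⟩, h4⟩
      exact ⟨⟨by omega, by omega⟩, ⟨h2, h3⟩, h4⟩
    · rintro ⟨_, ⟨h2, h3⟩, h4⟩
      exact ⟨⟨h2, h3⟩, h4⟩
  rw [e1, e2, ← sum_sub_distrib]
  have e3 : ∀ n ∈ Icc X (3 * X), |ci q b lam n * (if x < n ∧ n ≤ x + L then 1 else 0) -
      ci q b lam n * sapPhi w δ (Real.log n) (Real.log x) (Real.log ((x + L : ℕ) : ℝ))| ≤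
      (if x < n ∧ Real.log n < Real.log x + δ then Real.log (3 * X) else 0) +
      if x + L < n ∧ Real.log n < Real.log ((x + L : ℕ) : ℝ) + δ then Real.log (3 * X) else 0 := by
    intro n hn
    rw [mem_Icc] at hn
    have hn0 : (0 : ℝ) < n := by exact_mod_cast (by omega : 0 < n)
    have hlog : 0 ≤ Real.log (3 * X) := Real.log_nonneg (by linarith)
    have hc : |ci q b lam n| ≤ Real.log (3 * X) := by
      unfold ci
      split_ifs
      · change |ArithmeticFunction.vonMangoldt n| ≤ _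
        rw [abs_of_nonneg (ArithmeticFunction.vonMangoldt_nonneg)]
        refine ArithmeticFunction.vonMangoldt_le_log.trans (Real.log_le_log hn0 ?_)
        exact_mod_cast hn.2
      · rw [abs_zero]
        exact hlog
    rw [← mul_sub, abs_mul]
    set Φ := sapPhi w δ (Real.log n) (Real.log x) (Real.log ((x + L : ℕ) : ℝ)) with hΦ
    have hΦ0 : 0 ≤ Φ := sap_phi_nonneg hw h0 hab
    have hΦ1 : Φ ≤ 1 := sap_phi_le hw h0 hab
    have hnn : ∀ p : Prop, [Decidable p] → 0 ≤ (if p then Real.log (3 * X) else 0) := by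
      intro p _
      split_ifs
      · exact hlog
      · exact le_rfl
    rcases Nat.lt_or_ge x n with h2 | h2
    · rcases Nat.lt_or_ge (x + L) n with h3 | h3
      · -- beyond the interval
        rw [if_neg (show ¬ (x < n ∧ n ≤ x + L) by omega)]
        by_cases h4 : Real.log n < Real.log ((x + L : ℕ) : ℝ) + δ
        · rw [if_pos (show x + L < n ∧ Real.log n < Real.log ((x + L : ℕ) : ℝ) + δ from ⟨h3, h4⟩)]
          have h5 : |0 - Φ| ≤ 1 := by
            rw [zero_sub, abs_neg, abs_of_nonneg hΦ0]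
            exact hΦ1
          have h6 := mul_le_mul hc h5 (abs_nonneg _) hlog
          have h7 := hnn (x < n ∧ Real.log n < Real.log x + δ)
          linarith
        · have h5 : Φ = 0 := sap_phi_zero hw h0 hab (Or.inr (not_lt.1 h4))
          rw [h5, sub_zero, abs_zero, mul_zero]
          exact add_nonneg (hnn _) (hnn _)
      · -- in the interval
        rw [if_pos (show x < n ∧ n ≤ x + L from ⟨h2, h3⟩)]
        by_cases h4 : Real.log n < Real.log x + δ
        · rw [if_pos (show x < n ∧ Real.log n < Real.log x + δ from ⟨h2, h4⟩)]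
          have h5 : |1 - Φ| ≤ 1 := by
            rw [abs_le]
            constructor <;> linarith
          have h6 := mul_le_mul hc h5 (abs_nonneg _) hlog
          have h7 := hnn (x + L < n ∧ Real.log n < Real.log ((x + L : ℕ) : ℝ) + δ)
          linarith
        · have h5 : Φ = 1 := by
            apply sap_phi_one hw h0 (not_lt.1 h4)
            apply Real.log_le_log hn0
            exact_mod_cast h3
          rw [h5, sub_self, abs_zero, mul_zero]
          exact add_nonneg (hnn _) (hnn _)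
    · rw [if_neg (show ¬ (x < n ∧ n ≤ x + L) by omega)]
      have h5 : Φ = 0 := by
        apply sap_phi_zero hw h0 hab
        left
        apply Real.log_le_log hn0
        exact_mod_cast h2
      rw [h5, sub_zero, abs_zero, mul_zero]
      exact add_nonneg (hnn _) (hnn _)
  refine (abs_sum_le_sum_abs _ _).trans ((sum_le_sum e3).trans ?_)
  rw [sum_add_distrib, ← sum_filter, ← sum_filter, sum_const, sum_const, nsmul_eq_mul,
    nsmul_eq_mul, ← add_mul]
  have hlog : 0 ≤ Real.log (3 * X) := Real.log_nonneg (by linarith)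
  apply mul_le_mul_of_nonneg_right _ hlog
  have c1 := sap_card (Icc X (3 * X)) x (by omega) h0 h1
  have c2 := sap_card (Icc X (3 * X)) (x + L) (by omega) h0 h1
  have c3 : (x : ℝ) * δ ≤ 2 * X * δ := by
    apply mul_le_mul_of_nonneg_right _ h0.le
    exact_mod_cast hx2
  have c4 : ((x + L : ℕ) : ℝ) * δ ≤ 5 / 2 * X * δ := by
    apply mul_le_mul_of_nonneg_right _ h0.le
    have : 2 * (x + L) ≤ 5 * X := by omega
    have h2 : 2 * ((x + L : ℕ) : ℝ) ≤ 5 * X := by exact_mod_cast this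
    linarith
  linarith

/-- Cauchy and Schwarz -/
lemma sap_cs {f : ℝ → ℝ} (hf : Continuous f) {a b : ℝ} (hab : a < b) :
    (∫ y in a..b, f y) ^ 2 ≤ (b - a) * ∫ y in a..b, f y ^ 2 := by
  set I := ∫ y in a..b, f y with hI
  set J := ∫ y in a..b, f y ^ 2 with hJ
  have hba : 0 < b - a := sub_pos.2 hab
  have h1 : 0 ≤ ∫ y in a..b, (f y - I / (b - a)) ^ 2 :=
    intervalIntegral.integral_nonneg hab.le fun y _ => sq_nonneg _
  have h2 : ∫ y in a..b, (f y - I / (b - a)) ^ 2 = J - 2 * (I / (b - a)) * I +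
      (b - a) * (I / (b - a)) ^ 2 := by
    have e1 : ∀ y, (f y - I / (b - a)) ^ 2 =
        f y ^ 2 - 2 * (I / (b - a)) * f y + (I / (b - a)) ^ 2 := fun y => by ring
    simp only [e1]
    rw [intervalIntegral.integral_add, intervalIntegral.integral_sub,
      intervalIntegral.integral_const_mul, intervalIntegral.integral_const, smul_eq_mul]
    · exact Continuous.intervalIntegrable (by fun_prop) _ _
    · exact Continuous.intervalIntegrable (by fun_prop) _ _
    · exact Continuous.intervalIntegrable (by fun_prop) _ _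
    · exact Continuous.intervalIntegrable (by fun_prop) _ _
  rw [h2] at h1
  have h3 : J - 2 * (I / (b - a)) * I + (b - a) * (I / (b - a)) ^ 2 = J - I ^ 2 / (b - a) := by
    field_simp
    ring
  rw [h3] at h1
  have h4 : I ^ 2 / (b - a) ≤ J := by linarith
  rw [div_le_iff₀ hba] at h4
  linarith

/-- every point is in at most `L` of the intervals -/
lemma sap_cover {g : ℝ → ℝ} (hg : Continuous g) (hg0 : ∀ y, 0 ≤ g y) (X L : ℕ) (hX : 1 ≤ X)
    (hL : 2 * L ≤ X) :
    ∑ x ∈ Icc X (2 * X), ∫ y in (Real.log x)..(Real.log ((x + L : ℕ) : ℝ)), g y ≤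
      L * ∫ y in (Real.log X)..(Real.log (5 * X / 2)), g y := by
  have hX0 : (0 : ℝ) < X := by exact_mod_cast hX
  have h1 : ∀ x : ℕ, ∫ y in (Real.log x)..(Real.log ((x + L : ℕ) : ℝ)), g y =
      ∑ j ∈ range L, ∫ y in (Real.log ((x + j : ℕ) : ℝ))..(Real.log ((x + (j + 1) : ℕ) : ℝ)),
        g y := by
    intro x
    have := intervalIntegral.sum_integral_adjacent_intervals (f := g) (μ := MeasureTheory.volume)
      (a := fun j : ℕ => Real.log ((x + j : ℕ) : ℝ)) (n := L)
      (fun k _ => hg.intervalIntegrable _ _)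
    rw [this, Nat.add_zero]
  simp only [h1]
  rw [sum_comm]
  have h2 : ∀ j ∈ range L, ∑ x ∈ Icc X (2 * X),
      ∫ y in (Real.log ((x + j : ℕ) : ℝ))..(Real.log ((x + (j + 1) : ℕ) : ℝ)), g y ≤
      ∫ y in (Real.log X)..(Real.log (5 * X / 2)), g y := by
    intro j hj
    rw [mem_range] at hj
    have e1 : Icc X (2 * X) = Ico X (2 * X + 1) := by
      ext n
      simp only [mem_Icc, mem_Ico]
      omega
    have e2 := intervalIntegral.sum_integral_adjacent_intervals_Ico (f := g)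
      (μ := MeasureTheory.volume) (a := fun k : ℕ => Real.log ((k + j : ℕ) : ℝ))
      (show X ≤ 2 * X + 1 by omega) (fun k _ => hg.intervalIntegrable _ _)
    have e3 : ∀ x : ℕ, ((x + (j + 1) : ℕ) : ℝ) = ((x + 1 + j : ℕ) : ℝ) := fun x => by
      congr 1
      ring
    simp only [e3]
    rw [e1]
    refine e2.le.trans ?_
    apply intervalIntegral.integral_mono_interval
    · apply Real.log_le_log hX0
      exact_mod_cast Nat.le_add_right X j
    · apply Real.log_le_log
      · exact_mod_cast (by omega : 0 < X + j)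
      · exact_mod_cast (by omega : X + j ≤ 2 * X + 1 + j)
    · apply Real.log_le_log
      · exact_mod_cast (by omega : 0 < 2 * X + 1 + j)
      · have h3 : 2 * (2 * X + 1 + j) ≤ 5 * X := by omega
        have h4 : 2 * ((2 * X + 1 + j : ℕ) : ℝ) ≤ 5 * X := by exact_mod_cast h3
        linarith
    · exact Filter.Eventually.of_forall fun y => hg0 y
    · exact hg.intervalIntegrable _ _
  refine (sum_le_sum h2).trans ?_
  rw [sum_const, card_range, nsmul_eq_mul]

/-- large `X` -/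
lemma sap_ev (A C : ℕ) : ∀ᶠ X : ℕ in atTop, 3 ≤ X ∧ 64 ≤ Real.log X ∧
    Real.log X ^ (C + (A + 2)) ≤ (X : ℝ) ^ (1 / 20 : ℝ) ∧ 2 ≤ (X : ℝ) ^ (9 / 20 : ℝ) := by
  have hT : Tendsto (fun X : ℕ => (X : ℝ)) atTop atTop := tendsto_natCast_atTop_atTop
  have h1 := (isLittleO_log_rpow_rpow_atTop ((C + (A + 2) : ℕ) : ℝ)
    (show (0 : ℝ) < 1 / 20 by norm_num)).bound (c := 1) one_pos
  filter_upwards [eventually_ge_atTop 3, (Real.tendsto_log_atTop.comp hT).eventually_ge_atTop 64,
    hT.eventually h1, ((tendsto_rpow_atTop (show (0 : ℝ) < 9 / 20 by norm_num)).comp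
      hT).eventually_ge_atTop 2] with X h3 h64 h2 h4
  refine ⟨h3, h64, ?_, h4⟩
  have hX : (1 : ℝ) ≤ X := by exact_mod_cast (by omega : 1 ≤ X)
  have hl : 0 ≤ Real.log X := Real.log_nonneg hX
  rw [Real.norm_of_nonneg (by positivity), Real.norm_of_nonneg (by positivity),
    Real.rpow_natCast, one_mul] at h2
  exact h2

/-- [Sap] -/
theorem thm_Sap (hS : St_WSm) : NRP.St_Sap := by
  intro A C D
  obtain ⟨w, hw⟩ := SI.thm_W
  obtain ⟨X₀, hX₀⟩ := hS w hw (A + 1) D
  filter_upwards [sap_ev A C, eventually_ge_atTop X₀] with X hX hXX₀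
  obtain ⟨hX3, h64, hpow, h920⟩ := hX
  intro q b L hq hqD hbq hL1 hL2
  have hXR : (3 : ℝ) ≤ X := by exact_mod_cast hX3
  have hX0 : (0 : ℝ) < X := by linarith
  set l : ℝ := Real.log X with hl
  have hl0 : 0 < l := by linarith
  have hl1 : 1 ≤ l := by linarith
  have hsq : Real.sqrt X = (X : ℝ) ^ (1 / 2 : ℝ) := Real.sqrt_eq_rpow _
  have hs0 : 0 < Real.sqrt X := Real.sqrt_pos.2 hX0
  have hLp : (0 : ℝ) < L := lt_of_lt_of_le (by positivity) hL1
  have hLn : 0 < L := by exact_mod_cast hLp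
  have hCle : l ^ C ≤ (X : ℝ) ^ (1 / 20 : ℝ) :=
    (pow_le_pow_right₀ hl1 (by omega)).trans hpow
  have hL11 : (L : ℝ) ≤ (X : ℝ) ^ (11 / 20 : ℝ) := by
    calc (L : ℝ) ≤ Real.sqrt X * l ^ C := hL2
      _ ≤ (X : ℝ) ^ (1 / 2 : ℝ) * (X : ℝ) ^ (1 / 20 : ℝ) := by
          rw [hsq]
          exact mul_le_mul_of_nonneg_left hCle (by positivity)
      _ = (X : ℝ) ^ (11 / 20 : ℝ) := by
          rw [← Real.rpow_add hX0]
          norm_num
  have hLX : 2 * L ≤ X := by
    have h1 : (2 : ℝ) * L ≤ X := by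
      calc (2 : ℝ) * L ≤ (X : ℝ) ^ (9 / 20 : ℝ) * (X : ℝ) ^ (11 / 20 : ℝ) :=
            mul_le_mul h920 hL11 hLp.le (by positivity)
        _ = X := by
            rw [← Real.rpow_add hX0]
            norm_num
    exact_mod_cast h1
  set δ : ℝ := L / (X * l ^ (A + 2)) with hδ
  have hδ0 : 0 < δ := by positivity
  have hδ1 : (X : ℝ) ^ (-(11 / 20) : ℝ) ≤ δ := by
    rw [hδ, le_div_iff₀ (by positivity)]
    have e1 : (X : ℝ) ^ (-(11 / 20) : ℝ) * X = (X : ℝ) ^ (9 / 20 : ℝ) := by
      nth_rewrite 2 [← Real.rpow_one (X : ℝ)]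
      rw [← Real.rpow_add hX0]
      norm_num
    rw [← mul_assoc, e1]
    refine le_trans ?_ hL1
    rw [le_div_iff₀ (by positivity), mul_assoc, ← pow_add, add_comm (A + 2) C]
    calc (X : ℝ) ^ (9 / 20 : ℝ) * l ^ (C + (A + 2))
        ≤ (X : ℝ) ^ (9 / 20 : ℝ) * (X : ℝ) ^ (1 / 20 : ℝ) :=
          mul_le_mul_of_nonneg_left hpow (by positivity)
      _ = Real.sqrt X := by
          rw [hsq, ← Real.rpow_add hX0]
          norm_num
  have hδ2 : δ ≤ (X : ℝ) ^ (-(9 / 20) : ℝ) := by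
    rw [hδ, div_le_iff₀ (by positivity)]
    have e1 : (X : ℝ) ^ (-(9 / 20) : ℝ) * X = (X : ℝ) ^ (11 / 20 : ℝ) := by
      nth_rewrite 2 [← Real.rpow_one (X : ℝ)]
      rw [← Real.rpow_add hX0]
      norm_num
    rw [← mul_assoc, e1]
    refine hL11.trans (le_mul_of_one_le_right (by positivity) (one_le_pow₀ hl1))
  have hδ3 : δ ≤ 1 := hδ2.trans
    (Real.rpow_le_one_of_one_le_of_nonpos (by linarith) (by norm_num))
  have hXδ : (X : ℝ) * δ = L / l ^ (A + 2) := by
    rw [hδ]
    field_simp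
  have hvar := hX₀ X q b hXX₀ hq hqD hbq δ hδ1 hδ2
  set φ : ℝ := (q.totient : ℝ) with hφ
  set E : ℝ → ℝ := fun y => sapS w δ q b X y - Real.exp y / φ with hE
  have hEc : Continuous E := by
    have := sap_cont hw δ q b X
    rw [hE]
    fun_prop
  have hvar' : ∫ y in l..(Real.log (5 * X / 2)), E y ^ 2 ≤ X ^ 2 / l ^ (A + 1) := hvar
  have hlog3 : Real.log (3 * X) ≤ 2 * l := by
    rw [Real.log_mul (by norm_num) hX0.ne']
    have : Real.log 3 ≤ l := Real.log_le_log (by norm_num) hXR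
    linarith
  -- one interval
  have hone : ∀ x ∈ Icc X (2 * X),
      ((∑ n ∈ (Ioc x (x + L)).filter (fun n => n % q = b % q), lam n) - (L : ℝ) / φ) ^ 2 ≤
      (L : ℝ) ^ 2 / (6 * l ^ A) +
        2 * (L / X) * ∫ y in (Real.log x)..(Real.log ((x + L : ℕ) : ℝ)), E y ^ 2 := by
    intro x hx
    rw [mem_Icc] at hx
    have hxX : (X : ℝ) ≤ x := by exact_mod_cast hx.1
    have hx0 : (0 : ℝ) < x := by linarith
    have hxLc : ((x + L : ℕ) : ℝ) = x + L := by push_cast; ring
    have e1 := sap_edge hw hδ0 hδ3 q b X x L (by omega) hx.1 hx.2 hLX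
    set T := ∑ n ∈ (Ioc x (x + L)).filter (fun n => n % q = b % q), lam n with hT
    have hlt : Real.log x < Real.log ((x + L : ℕ) : ℝ) := by
      apply Real.log_lt_log hx0
      rw [hxLc]
      linarith
    have e2 : ∫ y in (Real.log x)..(Real.log ((x + L : ℕ) : ℝ)), E y =
        (∫ y in (Real.log x)..(Real.log ((x + L : ℕ) : ℝ)), sapS w δ q b X y) - L / φ := by
      rw [hE, intervalIntegral.integral_sub ((sap_cont hw δ q b X).intervalIntegrable _ _)
        (Continuous.intervalIntegrable (by fun_prop) _ _), intervalIntegral.integral_div,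
        integral_exp, Real.exp_log hx0, Real.exp_log (by rw [hxLc]; linarith), hxLc]
      congr 2
      ring
    have e3 := sap_cs hEc hlt
    set I := ∫ y in (Real.log x)..(Real.log ((x + L : ℕ) : ℝ)), sapS w δ q b X y with hI
    set J := ∫ y in (Real.log x)..(Real.log ((x + L : ℕ) : ℝ)), E y ^ 2 with hJ
    have hJ0 : 0 ≤ J := intervalIntegral.integral_nonneg hlt.le fun y _ => sq_nonneg _
    have e4 : Real.log ((x + L : ℕ) : ℝ) - Real.log x ≤ L / X := by
      rw [← Real.log_div (by rw [hxLc]; positivity) hx0.ne', hxLc]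
      have h1 := Real.log_le_sub_one_of_pos (show (0 : ℝ) < (x + L) / x by positivity)
      have h2 : ((x : ℝ) + L) / x - 1 = L / x := by
        field_simp
        ring
      rw [h2] at h1
      exact h1.trans (div_le_div_of_nonneg_left hLp.le hX0 hxX)
    have e5 : (I - L / φ) ^ 2 ≤ L / X * J := by
      rw [← e2]
      exact e3.trans (mul_le_mul_of_nonneg_right e4 hJ0)
    have e6 : |T - I| ≤ 18 * L / l ^ (A + 1) := by
      refine e1.trans ?_
      rw [hXδ]
      calc 9 * ((L : ℝ) / l ^ (A + 2)) * Real.log (3 * X) ≤ 9 * (L / l ^ (A + 2)) * (2 * l) :=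
            mul_le_mul_of_nonneg_left hlog3 (by positivity)
        _ = 18 * L / l ^ (A + 1) := by
            rw [pow_succ l (A + 1)]
            field_simp
            ring
    have e7 : (T - I) ^ 2 ≤ (L : ℝ) ^ 2 / (12 * l ^ A) := by
      have h1 : (T - I) ^ 2 ≤ (18 * L / l ^ (A + 1)) ^ 2 := by
        rw [← sq_abs]
        exact pow_le_pow_left₀ (abs_nonneg _) e6 2
      refine h1.trans ?_
      rw [div_pow, div_le_div_iff₀ (by positivity) (by positivity)]
      have h2 : (1 : ℝ) ≤ l ^ A := one_le_pow₀ hl1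
      have h3 : (4096 : ℝ) ≤ l ^ 2 := by nlinarith
      have h4 : (l ^ (A + 1)) ^ 2 = l ^ A * l ^ A * l ^ 2 := by ring
      rw [h4]
      have h5 : 4096 * l ^ A ≤ l ^ A * l ^ A * l ^ 2 := by
        calc 4096 * l ^ A = l ^ A * 4096 := by ring
          _ ≤ l ^ A * (l ^ A * l ^ 2) := by
              apply mul_le_mul_of_nonneg_left _ (by positivity)
              calc (4096 : ℝ) ≤ l ^ 2 := h3
                _ ≤ l ^ A * l ^ 2 := le_mul_of_one_le_left (by positivity) h2
          _ = l ^ A * l ^ A * l ^ 2 := by ring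
      calc (18 * (L : ℝ)) ^ 2 * (12 * l ^ A) = (L : ℝ) ^ 2 * (3888 * l ^ A) := by ring
        _ ≤ (L : ℝ) ^ 2 * (4096 * l ^ A) := by
            apply mul_le_mul_of_nonneg_left _ (by positivity)
            have : (0 : ℝ) < l ^ A := by positivity
            linarith
        _ ≤ (L : ℝ) ^ 2 * (l ^ A * l ^ A * l ^ 2) :=
            mul_le_mul_of_nonneg_left h5 (by positivity)
    have e8 : (T - L / φ) ^ 2 ≤ 2 * (T - I) ^ 2 + 2 * (I - L / φ) ^ 2 := by
      nlinarith [sq_nonneg ((T - I) - (I - L / φ))]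
    have e9 : 2 * ((L : ℝ) ^ 2 / (12 * l ^ A)) = (L : ℝ) ^ 2 / (6 * l ^ A) := by
      field_simp
      ring
    calc (T - L / φ) ^ 2 ≤ 2 * (T - I) ^ 2 + 2 * (I - L / φ) ^ 2 := e8
      _ ≤ 2 * ((L : ℝ) ^ 2 / (12 * l ^ A)) + 2 * (L / X * J) := by linarith
      _ = (L : ℝ) ^ 2 / (6 * l ^ A) + 2 * (L / X) * J := by rw [e9]; ring
  refine (sum_le_sum hone).trans ?_
  rw [sum_add_distrib, ← mul_sum, sum_const, Nat.card_Icc, nsmul_eq_mul]
  have hcov := sap_cover (g := fun y => E y ^ 2) (hEc.pow 2) (fun y => sq_nonneg _) X L (by omega)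
    hLX
  have h1 : ((2 * X + 1 - X : ℕ) : ℝ) ≤ 2 * X := by
    have : 2 * X + 1 - X ≤ 2 * X := by omega
    exact_mod_cast this
  have h2 : (2 : ℝ) * (L / X) * ∑ x ∈ Icc X (2 * X),
      ∫ y in (Real.log x)..(Real.log ((x + L : ℕ) : ℝ)), E y ^ 2 ≤
      2 * (L / X) * (L * (X ^ 2 / l ^ (A + 1))) := by
    apply mul_le_mul_of_nonneg_left _ (by positivity)
    exact hcov.trans (mul_le_mul_of_nonneg_left hvar' hLp.le)
  have h3 : ((2 * X + 1 - X : ℕ) : ℝ) * ((L : ℝ) ^ 2 / (6 * l ^ A)) ≤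
      2 * X * ((L : ℝ) ^ 2 / (6 * l ^ A)) := mul_le_mul_of_nonneg_right h1 (by positivity)
  have h4 : 2 * ((L : ℝ) / X) * (L * (X ^ 2 / l ^ (A + 1))) ≤ X * (L : ℝ) ^ 2 / l ^ A / 32 := by
    have e1 : 2 * ((L : ℝ) / X) * (L * (X ^ 2 / l ^ (A + 1))) =
        X * (L : ℝ) ^ 2 / l ^ A * (2 / l) := by
      rw [pow_succ l A]
      field_simp
    rw [e1]
    have e2 : 2 / l ≤ 1 / 32 := by
      rw [div_le_div_iff₀ hl0 (by norm_num)]
      linarith
    calc X * (L : ℝ) ^ 2 / l ^ A * (2 / l) ≤ X * (L : ℝ) ^ 2 / l ^ A * (1 / 32) :=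
          mul_le_mul_of_nonneg_left e2 (by positivity)
      _ = X * (L : ℝ) ^ 2 / l ^ A / 32 := by ring
  have h5 : 2 * X * ((L : ℝ) ^ 2 / (6 * l ^ A)) = X * (L : ℝ) ^ 2 / l ^ A / 3 := by
    field_simp
    ring
  have h6 : 0 ≤ X * (L : ℝ) ^ 2 / l ^ A := by positivity
  linarith

end Pool.Agent.NRW
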