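import Mathlib
import Pool.Agent.SI.Stmts
import Pool.Agent.NRV.St
import Pool.Agent.NRP.StN

set_option autoImplicit false

/-!
# NRW: block V2 of project NRP: primes in residue classes in almost all intervals of length `X^(1/2)`

Copies of the modules of `Pool/Agent/SI` with a character `χ` modulo `q ≤ (log X)^D`, and with the
exponent `3/5` in place of `3/4 - ε/2` for the length of the Dirichlet polynomials.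
-/

namespace Pool.Agent.NRW

open Finset Filter
open Pool.Agent.GBQ (lam)
open Pool.Agent.SI (nit DP fac cof siz IsW Wd)

/-- restriction to a residue class -/
noncomputable def ci (q b : ℕ) (c : ℕ → ℝ) (n : ℕ) : ℝ := if n % q = b % q then c n else 0

/-- Dirichlet polynomial with a character -/
noncomputable def DX {q : ℕ} (χ : DirichletCharacter ℂ q) (c : ℕ → ℝ) (M : ℕ) (t : ℝ) : ℂ :=
  ∑ n ∈ Icc 1 M, ((c n : ℝ) : ℂ) * χ (n : ZMod q) * nit t n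

/-- [WCls] `1_{n ≡ b (q)} = (1/φ(q)) ∑_χ conj(χ(b)) χ(n)` (`BVX/A9.lean` has the orthogonality), Cauchy and
Schwarz over the `φ(q)` characters. -/
def St_WCls : Prop := ∀ (q b : ℕ) [NeZero q], b.Coprime q → ∀ (c : ℕ → ℝ) (M : ℕ) (t : ℝ),
  ‖DP (ci q b c) M t‖ ^ 2 ≤ ∑ χ : DirichletCharacter ℂ q, ‖DX χ c M t‖ ^ 2

/-- [WMV] `SI.St_MV` (proved: `SI.thm_MV`, see `SI/Asm.lean`) for the real coefficients `c Re χ` and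
`c Im χ`: `DX = DP (c Re χ) + i DP (c Im χ)`. -/
def St_WMV : Prop := ∃ C : ℝ, 0 < C ∧ ∀ (q : ℕ) (χ : DirichletCharacter ℂ q) (c : ℕ → ℝ) (M : ℕ)
  (T : ℝ), 1 ≤ M → 1 ≤ T →
  ∫ t in (-T)..T, ‖DX χ c M t‖ ^ 2 ≤ C * (T + M * (1 + Real.log M)) * ∑ n ∈ Icc 1 M, c n ^ 2

/-- [WPr] as the first part of `SI.St_Cof` (file `SI/Cof.lean`: `cof_DP_mul`, `cof_prod`), `χ` is completely
multiplicative. -/
def St_WPr : Prop := ∀ (q : ℕ) (χ : DirichletCharacter ℂ q) (Z : ℕ) (l : List (ℕ × ℕ)) (t : ℝ),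
  DX χ (cof Z l) (2 ^ (siz l + l.length)) t =
    (l.map (fun x => DX χ (fac x.1 Z x.2) (2 ^ (x.2 + 1)) t)).prod

/-- [WRem] as `SI.thm_Rem` (file `SI/Rem.lean`), with `St_WPr`, `St_WMV`, `SI.St_Cof` (2), (3). -/
def St_WRem : Prop := ∃ C : ℕ, ∀ (q : ℕ) (χ : DirichletCharacter ℂ q) (Z : ℕ) (l : List (ℕ × ℕ))
  (x : ℕ × ℕ), l.length ≤ 8 → x ∈ l → ∀ T₁ T₂ U : ℝ, 1 ≤ T₁ → T₁ ≤ T₂ → 0 ≤ U →
  (∀ t : ℝ, T₁ ≤ t → t ≤ T₂ → ‖DX χ (fac x.1 Z x.2) (2 ^ (x.2 + 1)) t‖ ≤ U) →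
  ∫ t in T₁..T₂, ‖DX χ (cof Z l) (2 ^ (siz l + l.length)) t‖ ^ 2 ≤
    C * U ^ 2 * (T₂ + 2 ^ (siz l - x.2)) * 2 ^ (siz l - x.2) * (1 + (siz l : ℝ)) ^ C

/-- [WInt] as `SI.thm_Int` (file `SI/Int.lean`), from `St_WRem` and `NRV.St_FaC`.  `x ∈ l` with maximal
`N = 2^x.2 ≥ (X/256)^(1/8)`, `T₁ = X^(3/5)`, `R = 2^(siz l - x.2) ≤ 3X/N`.  If some element has kind `2` and
`2^(x.2) > Z` the product vanishes.  Case I, `N ≤ X^(8/25)`: first part of `St_FaC` (`δ = 1/20`):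
`N² 𝓛^(-2A₁) (T₁ + R) R 𝓛^C`, `N X T₁ ≤ X^(1 + 8/25 + 3/5) ≤ X²`.  Case II, `N > X^(8/25)`: the kind is `0` or `1`;
dyadic intervals `[T, 2T]`, second part of `St_FaC`: `U² ≤ C 𝓛^(2+4D) (N²/T² + T)`, and `N² T^(-2) T R ≤ 9X²/T₀`,
`N² T^(-2) R² ≤ 9X²/T₀²`, `T T R ≤ 3T²X/N ≤ 3X^(6/5 + 1 - 8/25)`, `T R² ≤ 9TX²/N² ≤ 9X^(3/5 + 2 - 16/25)`. -/
def St_WInt : Prop := ∀ A D : ℕ, ∃ B X₀ : ℕ, ∀ (X Z q : ℕ) (χ : DirichletCharacter ℂ q), X₀ ≤ X →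
  1 ≤ q → (q : ℝ) ≤ Real.log X ^ D → (Z : ℝ) ≤ 4 * (X : ℝ) ^ (1 / 4 : ℝ) →
  ∀ l : List (ℕ × ℕ), 1 ≤ l.length → l.length ≤ 8 → (∀ x ∈ l, x.1 ≤ 2) → 2 ^ siz l ≤ 3 * X →
  X ≤ 2 ^ (siz l + l.length) →
  ∫ t in (Real.log X ^ B)..((X : ℝ) ^ (3 / 5 : ℝ)),
    ‖DX χ (cof Z l) (2 ^ (siz l + l.length)) t‖ ^ 2 ≤ X ^ 2 / Real.log X ^ A

/-- [WOne] as `SI.var_one` (file `SI/Var.lean`; `var_split`), for the coefficients `ci q b (cof Z l)`: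
`St_WCls` and `St_WInt` on `[log^B₁ X, X^(3/5)]` (loss `φ(q) ≤ log^D X`); below `log^B₁ X` the difference of the Fourier
transforms is `≤ C |ξ| / log^B X` and `|DP| ≤ ∑ |cof|` (`SI.St_Cof` (3); `B₀` large compared with `B₁`); above
`X^(3/5)` the decay of the Fourier transform (`δ ≥ X^(-11/20)`). -/
def St_WOne : Prop := ∀ w : ℝ → ℝ, IsW w → ∀ A D : ℕ, ∃ B₀ : ℕ, 1 ≤ B₀ ∧ ∀ B : ℕ, B₀ ≤ B →
  ∃ X₀ : ℕ, ∀ X Z q b : ℕ, X₀ ≤ X → 1 ≤ q → (q : ℝ) ≤ Real.log X ^ D → b.Coprime q →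
  (Z : ℝ) ≤ 4 * (X : ℝ) ^ (1 / 4 : ℝ) → ∀ l : List (ℕ × ℕ), 1 ≤ l.length → l.length ≤ 8 →
  (∀ x ∈ l, x.1 ≤ 2) → 2 ^ siz l ≤ 3 * X → X ≤ 2 ^ (siz l + l.length) →
  ∀ δ : ℝ, (X : ℝ) ^ (-(11 / 20) : ℝ) ≤ δ → δ ≤ (X : ℝ) ^ (-(9 / 20) : ℝ) →
  ∫ y : ℝ, (∑ n ∈ Icc 1 (2 ^ (siz l + l.length)), ci q b (cof Z l) n *
    (Wd w δ (Real.log n - y) - Wd w (1 / Real.log X ^ B) (Real.log n - y))) ^ 2 ≤
    X ^ 2 / Real.log X ^ A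

/-- [WVar] as `SI.thm_Var` (file `SI/Var.lean`): `SI.St_Box`, Cauchy and Schwarz over the lists.  For
`log X ≤ y ≤ log(5X/2)` only the `n` with `X < n ≤ 3X` count. -/
def St_WVar : Prop := ∀ w : ℝ → ℝ, IsW w → ∀ A D : ℕ, ∃ B₀ : ℕ, 1 ≤ B₀ ∧ ∀ B : ℕ, B₀ ≤ B →
  ∃ X₀ : ℕ, ∀ X q b : ℕ, X₀ ≤ X → 1 ≤ q → (q : ℝ) ≤ Real.log X ^ D → b.Coprime q →
  ∀ δ : ℝ, (X : ℝ) ^ (-(11 / 20) : ℝ) ≤ δ → δ ≤ (X : ℝ) ^ (-(9 / 20) : ℝ) →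
  ∫ y in (Real.log X)..(Real.log (5 * X / 2)), (∑ n ∈ Icc X (3 * X), ci q b lam n *
    (Wd w δ (Real.log n - y) - Wd w (1 / Real.log X ^ B) (Real.log n - y))) ^ 2 ≤
    X ^ 2 / Real.log X ^ A

/-- [WLong] the long averages: `BVX.sw_ap` (at `N = 3X`) and partial summation against the weight
`n ↦ Wd w (1/log^B X) (log n - y)` (total variation `≤ C log^B X`), main term
`(1/φ(q)) ∫ Wd w δ (log s - y) ds = (e^y/φ(q)) ∫ w(u) e^(δ u) du`, `δ = 1/log^B X`, `1 ≤ e^(δ u) ≤ 1 + 2δ`. -/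
def St_WLong : Prop := ∀ w : ℝ → ℝ, IsW w → ∀ A D B : ℕ, ∃ X₀ : ℕ, ∀ X q b : ℕ, X₀ ≤ X → 1 ≤ q →
  (q : ℝ) ≤ Real.log X ^ D → b.Coprime q → ∀ y : ℝ, Real.log X ≤ y → y ≤ Real.log (5 * X / 2) →
  |∑ n ∈ Icc X (3 * X), ci q b lam n * Wd w (1 / Real.log X ^ B) (Real.log n - y) -
    Real.exp y / (q.totient : ℝ)| ≤ X / Real.log X ^ A + 10 * X / Real.log X ^ B

/-- [WSm] `St_WVar` and `St_WLong` (`B = max B₀ (A + 3)`), `(a + b)² ≤ 2a² + 2b²`. -/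
def St_WSm : Prop := ∀ w : ℝ → ℝ, IsW w → ∀ A D : ℕ, ∃ X₀ : ℕ, ∀ X q b : ℕ, X₀ ≤ X → 1 ≤ q →
  (q : ℝ) ≤ Real.log X ^ D → b.Coprime q →
  ∀ δ : ℝ, (X : ℝ) ^ (-(11 / 20) : ℝ) ≤ δ → δ ≤ (X : ℝ) ^ (-(9 / 20) : ℝ) →
  ∫ y in (Real.log X)..(Real.log (5 * X / 2)), (∑ n ∈ Icc X (3 * X), ci q b lam n *
    Wd w δ (Real.log n - y) - Real.exp y / (q.totient : ℝ)) ^ 2 ≤ X ^ 2 / Real.log X ^ A

/-- [Sap] `NRP.St_Sap` from `St_WSm` and a weight (`SI.thm_W`).  `δ = L / (X log^A' X)`.  With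
`S(y) = ∑ ci q b lam n Wd w δ (log n - y)` and `Φ_x(n) = ∫_{log x}^{log(x+L)} Wd w δ (log n - y) dy ∈ [0, 1]`
(`= 1` for `x e^δ ≤ n ≤ x + L`, `= 0` for `n ≤ x` and for `n ≥ (x + L) e^δ`):
`|∑_{n ∈ (x, x+L], n ≡ b} lam n - ∫_{log x}^{log(x+L)} S| ≤ 2 (4Xδ + 1) log(3X) ≤ L / log^(A'-3) X` (trivial bound for
the edges, `X δ ≥ 1`), and `∫_{log x}^{log(x+L)} e^y/φ(q) dy = L/φ(q)` exactly.  Finally, with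
`E(y) = S(y) - e^y/φ(q)`, `∑_x (∫_{log x}^{log(x+L)} E)² ≤ ∑_x (L/X) ∫_{log x}^{log(x+L)} E² ≤ (L/X) (L + 1) ∫ E²` (each
`y` is in at most `L + 1` of the intervals `[log x, log(x+L)]`). -/
def St_SapW : Prop := NRP.St_Sap

end Pool.Agent.NRW
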