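import Mathlib
import Pool.Agent.NRW.St

set_option autoImplicit false

/-!
# NRW [WCls]: a residue class as a combination of characters
-/

namespace Pool.Agent.NRW

open Finset Filter
open Pool.Agent.SI (nit DP)

theorem wcls_key (q b : ℕ) [NeZero q] (hb : b.Coprime q) (c : ℕ → ℝ) (M : ℕ) (t : ℝ) :
    (q.totient : ℂ) * DP (ci q b c) M t =
      ∑ χ : DirichletCharacter ℂ q, χ ((b : ZMod q)⁻¹) * DX χ c M t := by
  classical
  have ha : IsUnit (b : ZMod q) := (ZMod.unitOfCoprime b hb).isUnit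
  simp only [DP, DX, Finset.mul_sum]
  rw [Finset.sum_comm]
  refine Finset.sum_congr rfl fun n _ => ?_
  have h := DirichletCharacter.sum_char_inv_mul_char_eq (R := ℂ) ha (n : ZMod q)
  have e : ∑ χ : DirichletCharacter ℂ q,
      χ ((b : ZMod q)⁻¹) * (((c n : ℝ) : ℂ) * χ (n : ZMod q) * nit t n) =
      (∑ χ : DirichletCharacter ℂ q, χ ((b : ZMod q)⁻¹) * χ (n : ZMod q)) *
        (((c n : ℝ) : ℂ) * nit t n) := by
    rw [Finset.sum_mul]
    refine Finset.sum_congr rfl fun χ _ => ?_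
    ring
  rw [e, h]
  by_cases hn : n % q = b % q
  · have h2 : (b : ZMod q) = (n : ZMod q) := by
      rw [ZMod.natCast_eq_natCast_iff]
      exact hn.symm
    rw [if_pos h2, ci, if_pos hn]
  · have h2 : ¬ (b : ZMod q) = (n : ZMod q) := by
      rw [ZMod.natCast_eq_natCast_iff]
      exact fun h => hn h.symm
    rw [if_neg h2, ci, if_neg hn]
    simp

theorem thm_WCls : St_WCls := by
  intro q b _ hb c M t
  classical
  have hkey := wcls_key q b hb c M t
  have hφ : (1 : ℝ) ≤ (q.totient : ℝ) := by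
    have : 0 < q.totient := Nat.totient_pos.mpr (Nat.pos_of_ne_zero (NeZero.ne q))
    exact_mod_cast this
  have hcard : ((Finset.univ : Finset (DirichletCharacter ℂ q)).card : ℝ) = (q.totient : ℝ) := by
    have h1 := DirichletCharacter.card_eq_totient_of_hasEnoughRootsOfUnity ℂ q
    rw [Finset.card_univ, ← Nat.card_eq_fintype_card, h1]
  have h1 : (q.totient : ℝ) * ‖DP (ci q b c) M t‖ ≤
      ∑ χ : DirichletCharacter ℂ q, ‖DX χ c M t‖ := by
    have h2 : ‖(q.totient : ℂ) * DP (ci q b c) M t‖ = (q.totient : ℝ) * ‖DP (ci q b c) M t‖ := by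
      rw [norm_mul, Complex.norm_natCast]
    rw [← h2, hkey]
    refine (norm_sum_le _ _).trans (Finset.sum_le_sum fun χ _ => ?_)
    rw [norm_mul]
    have h3 : ‖χ ((b : ZMod q)⁻¹)‖ ≤ 1 := DirichletCharacter.norm_le_one χ _
    have h4 : 0 ≤ ‖DX χ c M t‖ := norm_nonneg _
    nlinarith
  have h5 : (∑ χ : DirichletCharacter ℂ q, ‖DX χ c M t‖) ^ 2 ≤
      (q.totient : ℝ) * ∑ χ : DirichletCharacter ℂ q, ‖DX χ c M t‖ ^ 2 := by
    have := sq_sum_le_card_mul_sum_sq (s := (Finset.univ : Finset (DirichletCharacter ℂ q)))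
      (f := fun χ => ‖DX χ c M t‖)
    rwa [hcard] at this
  have h6 : ((q.totient : ℝ) * ‖DP (ci q b c) M t‖) ^ 2 ≤
      (q.totient : ℝ) * ∑ χ : DirichletCharacter ℂ q, ‖DX χ c M t‖ ^ 2 :=
    (pow_le_pow_left₀ (by positivity) h1 2).trans h5
  have h7 : 0 ≤ ‖DP (ci q b c) M t‖ ^ 2 := by positivity
  have h8 : (q.totient : ℝ) * ((q.totient : ℝ) * ‖DP (ci q b c) M t‖ ^ 2) ≤
      (q.totient : ℝ) * ∑ χ : DirichletCharacter ℂ q, ‖DX χ c M t‖ ^ 2 := by
    calc (q.totient : ℝ) * ((q.totient : ℝ) * ‖DP (ci q b c) M t‖ ^ 2)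
        = ((q.totient : ℝ) * ‖DP (ci q b c) M t‖) ^ 2 := by ring
      _ ≤ _ := h6
  have h9 := le_of_mul_le_mul_left h8 (by linarith)
  nlinarith

end Pool.Agent.NRW
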