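import Mathlib
import Pool.Agent.NRW.St
import Pool.Agent.SI.Int

set_option autoImplicit false

/-!
# NRW / WInt

The mean square of one product of Dirichlet polynomials with a character (copy of `SI/Int.lean`).
With `P = X^(1/25)`: `T₁ = P^15`, the cases are `N ≤ P^8` and `N ≥ P^8`.
-/

namespace Pool.Agent.NRW

open Finset Filter
open Pool.Agent.SI (nit DP fac cof siz IsW Wd)

lemma wint_cont {q : ℕ} (χ : DirichletCharacter ℂ q) (c : ℕ → ℝ) (M : ℕ) :
    Continuous (fun t : ℝ => ‖DX χ c M t‖ ^ 2) := by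
  unfold DX nit
  fun_prop

lemma wint_fac_zero {q : ℕ} (χ : DirichletCharacter ℂ q) (Z i : ℕ) (h : Z < 2 ^ i) (M : ℕ)
    (t : ℝ) : DX χ (fac 2 Z i) M t = 0 := by
  unfold DX
  refine sum_eq_zero fun n _ => ?_
  have h0 : fac 2 Z i n = 0 := by
    unfold fac
    by_cases h1 : 2 ^ i ≤ n ∧ n < 2 ^ (i + 1)
    · rw [if_pos h1, if_neg (by norm_num), if_neg (by norm_num), if_neg (by omega)]
    · rw [if_neg h1]
  rw [h0]
  simp

lemma wint_core {P T N R X T₀ : ℝ} (hX : P ^ 25 = X) (hP : 1 ≤ P) (h0 : 1 ≤ T₀)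
    (hT : T₀ ≤ T) (hT2 : T ≤ P ^ 15) (hN : P ^ 8 ≤ N) (hN2 : N ≤ 3 * X)
    (hNR : N * R ≤ 3 * X) (hR : 0 < R) :
    (N ^ 2 / T ^ 2 + 2 * T) * (2 * T + R) * R ≤ 30 * X ^ 2 * (1 / P + 1 / T₀) := by
  have hTp : 0 < T := by linarith
  have hT1 : 1 ≤ T := by linarith
  have hPp : 0 < P := by linarith
  have hNp : 0 < N := lt_of_lt_of_le (by positivity) hN
  have hXp : 0 < X := by rw [← hX]; positivity
  have hNRp : 0 < N * R := by positivity
  have hNR2 : (N * R) ^ 2 ≤ 9 * X ^ 2 := by nlinarith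
  have e0 : (N ^ 2 / T ^ 2 + 2 * T) * (2 * T + R) * R =
      2 * N * (N * R) / T + (N * R) ^ 2 / T ^ 2 + 4 * T ^ 2 * (N * R) / N +
        2 * T * (N * R) ^ 2 / N ^ 2 := by
    field_simp
    ring
  have e1 : 2 * N * (N * R) / T ≤ 18 * X ^ 2 / T₀ := by
    apply div_le_div₀ (by positivity) _ (by linarith) hT
    calc 2 * N * (N * R) ≤ 2 * (3 * X) * (3 * X) := by
          apply mul_le_mul (by linarith) hNR hNRp.le (by positivity)
      _ = 18 * X ^ 2 := by ring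
  have e2 : (N * R) ^ 2 / T ^ 2 ≤ 9 * X ^ 2 / T₀ := by
    apply div_le_div₀ (by positivity) hNR2 (by linarith)
    nlinarith
  have hTT : T ^ 2 ≤ P ^ 30 := by
    calc T ^ 2 ≤ (P ^ 15) ^ 2 := pow_le_pow_left₀ hTp.le hT2 2
      _ = P ^ 30 := by rw [← pow_mul]
  have e3 : 4 * T ^ 2 * (N * R) / N ≤ 12 * X ^ 2 / P := by
    rw [div_le_div_iff₀ hNp hPp]
    calc 4 * T ^ 2 * (N * R) * P ≤ 4 * P ^ 30 * (3 * X) * P := by
          apply mul_le_mul_of_nonneg_right _ hPp.le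
          apply mul_le_mul (by linarith) hNR hNRp.le (by positivity)
      _ = 12 * X * P ^ 25 * P ^ 6 := by ring
      _ ≤ 12 * X * P ^ 25 * P ^ 8 := by
          apply mul_le_mul_of_nonneg_left _ (by positivity)
          exact pow_le_pow_right₀ hP (by norm_num)
      _ = 12 * X ^ 2 * P ^ 8 := by rw [hX]; ring
      _ ≤ 12 * X ^ 2 * N := mul_le_mul_of_nonneg_left hN (by positivity)
  have e4 : 2 * T * (N * R) ^ 2 / N ^ 2 ≤ 18 * X ^ 2 / P := by
    rw [div_le_div_iff₀ (by positivity) hPp]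
    have hN16 : P ^ 16 ≤ N ^ 2 := by
      calc P ^ 16 = (P ^ 8) ^ 2 := by rw [← pow_mul]
        _ ≤ N ^ 2 := pow_le_pow_left₀ (by positivity) hN 2
    calc 2 * T * (N * R) ^ 2 * P ≤ 2 * P ^ 15 * (9 * X ^ 2) * P := by
          apply mul_le_mul_of_nonneg_right _ hPp.le
          apply mul_le_mul (by linarith) hNR2 (by positivity) (by positivity)
      _ = 18 * X ^ 2 * P ^ 16 := by ring
      _ ≤ 18 * X ^ 2 * N ^ 2 := mul_le_mul_of_nonneg_left hN16 (by positivity)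
  rw [e0]
  have e5 : 30 * X ^ 2 * (1 / P + 1 / T₀) = 30 * X ^ 2 / P + 30 * X ^ 2 / T₀ := by ring
  rw [e5]
  have e6 : 18 * X ^ 2 / T₀ + 9 * X ^ 2 / T₀ ≤ 30 * X ^ 2 / T₀ := by
    rw [← add_div]
    apply div_le_div_of_nonneg_right _ (by linarith)
    nlinarith [sq_nonneg X]
  have e7 : 12 * X ^ 2 / P + 18 * X ^ 2 / P ≤ 30 * X ^ 2 / P := by
    rw [← add_div]
    apply div_le_div_of_nonneg_right _ hPp.le
    linarith
  linarith

/-- large `X` -/
lemma wint_ev (K : ℝ) (B' : ℕ) : ∀ᶠ X : ℕ in atTop,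
    3 ≤ X ∧ 256 * (X : ℝ) ^ (2 / 5 : ℝ) ≤ X ∧
    4 * (X : ℝ) ^ (1 / 4 : ℝ) < ((X : ℝ) ^ (1 / 25 : ℝ)) ^ 8 ∧ K ≤ Real.log X ∧
    Real.log X ^ B' ≤ (X : ℝ) ^ (1 / 25 : ℝ) ∧ 2 * ((X : ℝ) ^ (1 / 25 : ℝ)) ^ 8 ≤ X := by
  have hT : Tendsto (fun X : ℕ => (X : ℝ)) atTop atTop := tendsto_natCast_atTop_atTop
  have hlog : ∀ (k : ℕ) (r : ℝ), 0 < r → ∀ᶠ X : ℕ in atTop, Real.log X ^ k ≤ (X : ℝ) ^ r := by
    intro k r hr
    have h1 := (isLittleO_log_rpow_rpow_atTop (k : ℝ) hr).bound (c := 1) one_pos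
    have h2 := hT.eventually h1
    filter_upwards [h2, eventually_ge_atTop 1] with X hX hX1
    have hX2 : (1 : ℝ) ≤ X := by exact_mod_cast hX1
    have hl : 0 ≤ Real.log X := Real.log_nonneg hX2
    rw [Real.norm_of_nonneg (by positivity), Real.norm_of_nonneg (by positivity), one_mul,
      Real.rpow_natCast] at hX
    exact hX
  have hpow : ∀ (c r : ℝ), 0 < r → ∀ᶠ X : ℕ in atTop, c < (X : ℝ) ^ r := by
    intro c r hr
    exact ((tendsto_rpow_atTop hr).comp hT).eventually_gt_atTop c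
  filter_upwards [eventually_ge_atTop 3, hpow 256 (3 / 5) (by norm_num),
    hpow 4 (7 / 100) (by norm_num), (Real.tendsto_log_atTop.comp hT).eventually_ge_atTop K,
    hlog B' (1 / 25) (by norm_num), hpow 2 (17 / 25) (by norm_num)] with X h3 h256 h4 hK hB h2
  have hX : (0 : ℝ) < X := by
    have : (3 : ℝ) ≤ X := by exact_mod_cast h3
    linarith
  have e8 : ((X : ℝ) ^ (1 / 25 : ℝ)) ^ 8 = (X : ℝ) ^ (8 / 25 : ℝ) := by
    rw [← Real.rpow_natCast, ← Real.rpow_mul hX.le]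
    norm_num
  refine ⟨h3, ?_, ?_, hK, hB, ?_⟩
  · have e5 : (X : ℝ) = (X : ℝ) ^ (3 / 5 : ℝ) * (X : ℝ) ^ (2 / 5 : ℝ) := by
      rw [← Real.rpow_add hX]
      norm_num
    calc 256 * (X : ℝ) ^ (2 / 5 : ℝ) ≤ (X : ℝ) ^ (3 / 5 : ℝ) * (X : ℝ) ^ (2 / 5 : ℝ) :=
          mul_le_mul_of_nonneg_right h256.le (by positivity)
      _ = X := e5.symm
  · rw [e8]
    have e5 : (X : ℝ) ^ (8 / 25 : ℝ) = (X : ℝ) ^ (7 / 100 : ℝ) * (X : ℝ) ^ (1 / 4 : ℝ) := by
      rw [← Real.rpow_add hX]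
      norm_num
    rw [e5]
    exact mul_lt_mul_of_pos_right h4 (by positivity)
  · rw [e8]
    have e5 : (X : ℝ) = (X : ℝ) ^ (17 / 25 : ℝ) * (X : ℝ) ^ (8 / 25 : ℝ) := by
      rw [← Real.rpow_add hX]
      norm_num
    calc 2 * (X : ℝ) ^ (8 / 25 : ℝ) ≤ (X : ℝ) ^ (17 / 25 : ℝ) * (X : ℝ) ^ (8 / 25 : ℝ) :=
          mul_le_mul_of_nonneg_right h2.le (by positivity)
      _ = X := e5.symm

theorem thm_WInt (hR₀ : St_WRem) (hF : NRV.St_FaC) : St_WInt := by
  intro A D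
  obtain ⟨hF1, CF, hCF1, hF2⟩ := hF
  obtain ⟨C, hR⟩ := hR₀
  obtain ⟨B1, X1, hB1⟩ := hF1 (A + C + 1) D (1 / 20) (by norm_num)
  set B' : ℕ := A + C + 4 * D + 4 + B1 with hB'
  set K₀ : ℝ := C * 8 * CF ^ 2 * 4 ^ (C + 2) * 30 with hK₀
  set K : ℝ := 12 * C * 4 ^ C + 6 * K₀ + 2 with hK
  have hCF0 : 0 ≤ CF := by linarith
  have hK₀0 : 0 ≤ K₀ := by positivity
  obtain ⟨X₀, hX₀⟩ := eventually_atTop.1 (wint_ev K B')
  refine ⟨B', max X₀ X1, ?_⟩
  intro X Z q χ hX hq1 hqD hZ l hl1 hl8 hkind hsiz hsizX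
  obtain ⟨h3, h256, h4, hKL, hLP, h2P⟩ := hX₀ X ((le_max_left _ _).trans hX)
  have hX1 : X1 ≤ X := (le_max_right _ _).trans hX
  have hXR : (3 : ℝ) ≤ X := by exact_mod_cast h3
  have hX0 : (0 : ℝ) < X := by linarith
  set L : ℝ := Real.log X with hL
  set P : ℝ := (X : ℝ) ^ (1 / 25 : ℝ) with hP
  have hL2 : 2 ≤ L := by
    have : 0 ≤ 12 * (C : ℝ) * 4 ^ C := by positivity
    linarith
  have hL1 : 1 ≤ L := by linarith
  have hP1 : 1 ≤ P := Real.one_le_rpow (by linarith) (by norm_num)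
  have hPp : 0 < P := by linarith
  have hP25 : P ^ 25 = X := by
    rw [hP, ← Real.rpow_natCast, ← Real.rpow_mul hX0.le]
    norm_num
  have hq0 : (0 : ℝ) ≤ q := Nat.cast_nonneg q
  -- the exponents of the interval
  set T₀ : ℝ := L ^ B' with hT₀
  set T₁ : ℝ := (X : ℝ) ^ (3 / 5 : ℝ) with hT₁
  have hT₁P : T₁ = P ^ 15 := by
    rw [hT₁, hP, ← Real.rpow_natCast, ← Real.rpow_mul hX0.le]
    norm_num
  have hT₀1 : 1 ≤ T₀ := one_le_pow₀ hL1
  have hT₀₁ : T₀ ≤ T₁ := by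
    rw [hT₁P]
    exact hLP.trans (le_self_pow₀ hP1 (by norm_num))
  -- the largest factor
  obtain ⟨x, hx, hxmax⟩ := SI.int_max l hl1
  have hsx : siz l ≤ 8 * x.2 := (SI.int_siz_le l x.2 hxmax).trans (Nat.mul_le_mul_right _ hl8)
  have hxs : x.2 ≤ siz l := SI.int_mem_le l x hx
  set N : ℝ := 2 ^ x.2 with hN
  set R : ℝ := 2 ^ (siz l - x.2) with hR'
  have hNp : 0 < N := by positivity
  have hRp : 0 < R := by positivity
  have hNR : N * R ≤ 3 * X := by
    rw [hN, hR', ← pow_add, Nat.add_sub_cancel' hxs]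
    exact_mod_cast hsiz
  have hsl : 1 + (siz l : ℝ) ≤ 4 * L := SI.int_siz_log h3 hL2 hsiz
  have hs0 : (0 : ℝ) ≤ siz l := Nat.cast_nonneg _
  have hxl : 1 + (x.2 : ℝ) ≤ 4 * L := by
    have : (x.2 : ℝ) ≤ siz l := by exact_mod_cast hxs
    linarith
  have hslC : (1 + (siz l : ℝ)) ^ C ≤ (4 * L) ^ C := pow_le_pow_left₀ (by linarith) hsl C
  have hN3 : N ≤ 3 * X := by
    have h5 : (1 : ℝ) ≤ R := one_le_pow₀ (by norm_num)
    nlinarith
  have hNbig : (X : ℝ) ^ (1 / 20 : ℝ) ≤ 2 ^ x.2 := by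
    by_contra hcon
    push Not at hcon
    have h5 : (X : ℝ) ≤ 256 * N ^ 8 := by
      have h6 : X ≤ 2 ^ (8 * x.2 + 8) := hsizX.trans (Nat.pow_le_pow_right (by norm_num) (by omega))
      have h7 : (X : ℝ) ≤ 2 ^ (8 * x.2 + 8) := by exact_mod_cast h6
      calc (X : ℝ) ≤ 2 ^ (8 * x.2 + 8) := h7
        _ = 256 * N ^ 8 := by
          rw [hN, ← pow_mul, pow_add, mul_comm x.2 8]
          norm_num
          ring
    have h6 : N ^ 8 < (X : ℝ) ^ (2 / 5 : ℝ) := by
      have h7 : N ^ 8 < ((X : ℝ) ^ (1 / 20 : ℝ)) ^ 8 := pow_lt_pow_left₀ hcon hNp.le (by norm_num)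
      rw [← Real.rpow_natCast ((X : ℝ) ^ (1 / 20 : ℝ)) 8, ← Real.rpow_mul hX0.le] at h7
      norm_num at h7 ⊢
      exact h7
    linarith
  have hLB1 : L ^ B1 ≤ T₀ := pow_le_pow_right₀ hL1 (by omega)
  have hT₁X : T₁ ≤ X := by
    calc T₁ ≤ (X : ℝ) ^ (1 : ℝ) :=
          Real.rpow_le_rpow_of_exponent_le (by linarith) (by norm_num)
      _ = X := Real.rpow_one _
  have hcont := wint_cont χ (cof Z l) (2 ^ (siz l + l.length))
  rcases le_total N (P ^ 8) with hcase | hcase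
  · -- case I
    have hU : ∀ t : ℝ, T₀ ≤ t → t ≤ T₁ →
        ‖DX χ (fac x.1 Z x.2) (2 ^ (x.2 + 1)) t‖ ≤ N / L ^ (A + C + 1) := by
      intro t ht1 ht2
      have htp : 0 < t := by linarith
      refine hB1 X Z x.1 x.2 q χ t hX1 hq1 hqD (hkind x hx) hNbig ?_ ?_ ?_
      · have h5 : (2 : ℝ) ^ (x.2 + 1) ≤ X := by
          rw [pow_succ]
          linarith
        exact_mod_cast h5
      · rw [abs_of_pos htp]
        linarith
      · rw [abs_of_pos htp]
        nlinarith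
    have h5 := hR q χ Z l x hl8 hx T₀ T₁ (N / L ^ (A + C + 1)) hT₀1 hT₀₁ (by positivity) hU
    refine h5.trans ?_
    have e1 : T₁ * (N * (N * R)) ≤ 3 * X ^ 2 := by
      have e2 : T₁ * N ≤ X := by
        calc T₁ * N ≤ P ^ 15 * P ^ 8 := by
              rw [hT₁P]
              exact mul_le_mul_of_nonneg_left hcase (by positivity)
          _ = P ^ 23 := by ring
          _ ≤ P ^ 25 := pow_le_pow_right₀ hP1 (by norm_num)
          _ = X := hP25
      calc T₁ * (N * (N * R)) = (T₁ * N) * (N * R) := by ring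
        _ ≤ X * (3 * X) := mul_le_mul e2 hNR (by positivity) hX0.le
        _ = 3 * X ^ 2 := by ring
    have e3 : (N * R) ^ 2 ≤ 9 * X ^ 2 := by
      calc (N * R) ^ 2 ≤ (3 * X) ^ 2 := pow_le_pow_left₀ (by positivity) hNR 2
        _ = 9 * X ^ 2 := by ring
    calc (C : ℝ) * (N / L ^ (A + C + 1)) ^ 2 * (T₁ + R) * R * (1 + (siz l : ℝ)) ^ C
        = (C : ℝ) / (L ^ (A + C + 1)) ^ 2 * (T₁ * (N * (N * R)) + (N * R) ^ 2) *
          (1 + (siz l : ℝ)) ^ C := by ring
      _ ≤ (C : ℝ) / (L ^ (A + C + 1)) ^ 2 * (12 * X ^ 2) * (4 * L) ^ C := by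
          apply mul_le_mul _ hslC (by positivity) (by positivity)
          apply mul_le_mul_of_nonneg_left _ (by positivity)
          linarith
      _ = (12 * C * 4 ^ C) * L ^ C * X ^ 2 / (L ^ (A + C + 1)) ^ 2 := by
          rw [mul_pow]
          ring
      _ ≤ L * L ^ C * X ^ 2 / (L ^ (A + C + 1)) ^ 2 := by
          apply div_le_div_of_nonneg_right _ (by positivity)
          apply mul_le_mul_of_nonneg_right _ (by positivity)
          apply mul_le_mul_of_nonneg_right _ (by positivity)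
          have : 0 ≤ 6 * K₀ := by positivity
          linarith
      _ ≤ X ^ 2 / L ^ A := by
          rw [div_le_div_iff₀ (by positivity) (by positivity)]
          have e4 : L * L ^ C * L ^ A = L ^ (A + C + 1) := by ring
          have e5 : 1 ≤ L ^ (A + C + 1) := one_le_pow₀ hL1
          calc L * L ^ C * X ^ 2 * L ^ A = X ^ 2 * L ^ (A + C + 1) := by rw [← e4]; ring
            _ ≤ X ^ 2 * (L ^ (A + C + 1)) ^ 2 := by
                apply mul_le_mul_of_nonneg_left _ (by positivity)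
                nlinarith
  · -- case II
    set V : ℝ := K₀ * L ^ (C + 4 * D + 2) * X ^ 2 * (1 / P + 1 / T₀) with hV
    have hV0 : 0 ≤ V := by positivity
    have hfin : (3 * L) * V ≤ X ^ 2 / L ^ A := by
      have e1 : 1 / P ≤ 1 / T₀ := one_div_le_one_div_of_le (by positivity) hLP
      calc (3 * L) * V ≤ (3 * L) * (K₀ * L ^ (C + 4 * D + 2) * X ^ 2 * (2 / T₀)) := by
            apply mul_le_mul_of_nonneg_left _ (by positivity)
            apply mul_le_mul_of_nonneg_left _ (by positivity)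
            have : 2 / T₀ = 1 / T₀ + 1 / T₀ := by ring
            rw [this]
            linarith
        _ = (6 * K₀) * L ^ (C + 4 * D + 3) * X ^ 2 / T₀ := by ring
        _ ≤ L * L ^ (C + 4 * D + 3) * X ^ 2 / T₀ := by
            apply div_le_div_of_nonneg_right _ (by positivity)
            apply mul_le_mul_of_nonneg_right _ (by positivity)
            apply mul_le_mul_of_nonneg_right _ (by positivity)
            have : 0 ≤ 12 * (C : ℝ) * 4 ^ C := by positivity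
            linarith
        _ ≤ X ^ 2 / L ^ A := by
            rw [div_le_div_iff₀ (by positivity) (by positivity)]
            calc L * L ^ (C + 4 * D + 3) * X ^ 2 * L ^ A = X ^ 2 * L ^ (A + C + 4 * D + 4) := by
                  ring
              _ ≤ X ^ 2 * T₀ := by
                apply mul_le_mul_of_nonneg_left _ (by positivity)
                exact pow_le_pow_right₀ hL1 (by omega)
    -- kind 2 is impossible
    have hk : x.1 < 2 ∨ (x.1 = 2 ∧ Z < 2 ^ x.2) := by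
      rcases Nat.lt_or_ge x.1 2 with hk | hk
      · exact Or.inl hk
      · right
        refine ⟨le_antisymm (hkind x hx) hk, ?_⟩
        have h5 : (Z : ℝ) < 2 ^ x.2 := by
          calc (Z : ℝ) ≤ 4 * (X : ℝ) ^ (1 / 4 : ℝ) := hZ
            _ < P ^ 8 := h4
            _ ≤ 2 ^ x.2 := hcase
        exact_mod_cast h5
    have hblock : ∀ T T' : ℝ, T₀ ≤ T → T ≤ T' → T' ≤ 2 * T → T' ≤ T₁ →
        ∫ t in T..T', ‖DX χ (cof Z l) (2 ^ (siz l + l.length)) t‖ ^ 2 ≤ V := by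
      intro T T' hT hTT' hT'2 hT'1
      have hT1 : 1 ≤ T := by linarith
      have hTp : 0 < T := by linarith
      rcases hk with hk | ⟨hk2, hZN⟩
      · -- kind 0 or 1
        have hi : 0 ≤ 1 + (x.2 : ℝ) := by positivity
        obtain ⟨U, hUdef⟩ : ∃ U : ℝ, U = CF * (1 + x.2) * (q : ℝ) ^ 2 *
            (N / T + Real.sqrt (2 * T)) := ⟨_, rfl⟩
        have hU0 : 0 ≤ U := by rw [hUdef]; positivity
        have hU : ∀ t : ℝ, T ≤ t → t ≤ T' → ‖DX χ (fac x.1 Z x.2) (2 ^ (x.2 + 1)) t‖ ≤ U := by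
          intro t ht1 ht2
          have htp : 0 < t := by linarith
          have h5 := hF2 x.1 Z x.2 q χ t (by omega) hq1 (by rw [abs_of_pos htp]; linarith)
          rw [abs_of_pos htp] at h5
          rw [hUdef]
          refine h5.trans ?_
          apply mul_le_mul_of_nonneg_left _ (by positivity)
          exact SI.int_UB hNp hT1 ht1 (by linarith)
        have hU2 : U ^ 2 ≤ CF ^ 2 * (4 * L) ^ 2 * L ^ (4 * D) * (8 * (N ^ 2 / T ^ 2 + 2 * T)) := by
          have hq4 : ((q : ℝ) ^ 2) ^ 2 ≤ L ^ (4 * D) := by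
            calc ((q : ℝ) ^ 2) ^ 2 = (q : ℝ) ^ 4 := by rw [← pow_mul]
              _ ≤ (L ^ D) ^ 4 := pow_le_pow_left₀ hq0 hqD 4
              _ = L ^ (4 * D) := by rw [← pow_mul, mul_comm]
          calc U ^ 2 = CF ^ 2 * (1 + (x.2 : ℝ)) ^ 2 * ((q : ℝ) ^ 2) ^ 2 *
                (N / T + Real.sqrt (2 * T)) ^ 2 := by rw [hUdef]; ring
            _ ≤ CF ^ 2 * (4 * L) ^ 2 * L ^ (4 * D) * (8 * (N ^ 2 / T ^ 2 + 2 * T)) := by
              apply mul_le_mul _ (SI.int_UB2 hTp) (by positivity) (by positivity)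
              apply mul_le_mul _ hq4 (by positivity) (by positivity)
              apply mul_le_mul_of_nonneg_left _ (by positivity)
              exact pow_le_pow_left₀ hi hxl 2
        have hWR := wint_core hP25 hP1 hT₀1 hT (by rw [← hT₁P]; linarith) hcase hN3 hNR hRp
        have h5 := hR q χ Z l x hl8 hx T T' U hT1 hTT' hU0 hU
        refine h5.trans ?_
        calc (C : ℝ) * U ^ 2 * (T' + R) * R * (1 + (siz l : ℝ)) ^ C
            ≤ (C : ℝ) * (CF ^ 2 * (4 * L) ^ 2 * L ^ (4 * D) * (8 * (N ^ 2 / T ^ 2 + 2 * T))) *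
              (2 * T + R) * R * (4 * L) ^ C := by
              apply mul_le_mul _ hslC (by positivity) (by positivity)
              apply mul_le_mul_of_nonneg_right _ hRp.le
              apply mul_le_mul
              · exact mul_le_mul_of_nonneg_left hU2 (by positivity)
              · linarith
              · have : 0 ≤ T' := by linarith
                positivity
              · positivity
          _ = (C * 8 * CF ^ 2 * 4 ^ (C + 2)) * L ^ (C + 4 * D + 2) *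
              ((N ^ 2 / T ^ 2 + 2 * T) * (2 * T + R) * R) := by
              rw [mul_pow, mul_pow, pow_add (4 : ℝ), pow_add L, pow_add L]
              ring
          _ ≤ (C * 8 * CF ^ 2 * 4 ^ (C + 2)) * L ^ (C + 4 * D + 2) *
              (30 * X ^ 2 * (1 / P + 1 / T₀)) :=
              mul_le_mul_of_nonneg_left hWR (by positivity)
          _ = V := by
              rw [hV, hK₀]
              ring
      · -- kind 2
        have h5 := hR q χ Z l x hl8 hx T T' 0 hT1 hTT' le_rfl (fun t _ _ => by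
          rw [hk2, wint_fac_zero χ Z x.2 hZN]
          simp)
        refine h5.trans ?_
        simpa using hV0
    have hJ : T₁ ≤ 2 ^ (⌊2 * L⌋₊ + 1) * T₀ := by
      have e1 : (X : ℝ) ≤ 2 ^ (⌊2 * L⌋₊ + 1) := by
        have e2 : 2 * L ≤ ((⌊2 * L⌋₊ + 1 : ℕ) : ℝ) := by
          push_cast
          exact (Nat.lt_floor_add_one _).le
        calc (X : ℝ) = Real.exp L := (Real.exp_log hX0).symm
          _ ≤ Real.exp (((⌊2 * L⌋₊ + 1 : ℕ) : ℝ) * Real.log 2) := by
            apply Real.exp_le_exp.2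
            have h5 : Real.log 2 > 0.6931471803 := Real.log_two_gt_d9
            have h6 : 2 * L * Real.log 2 ≤ ((⌊2 * L⌋₊ + 1 : ℕ) : ℝ) * Real.log 2 :=
              mul_le_mul_of_nonneg_right e2 (by linarith)
            nlinarith
          _ = 2 ^ (⌊2 * L⌋₊ + 1) := by
            rw [Real.exp_nat_mul, Real.exp_log (by norm_num)]
      have e3 : (2 : ℝ) ^ (⌊2 * L⌋₊ + 1) ≤ 2 ^ (⌊2 * L⌋₊ + 1) * T₀ :=
        le_mul_of_one_le_right (by positivity) hT₀1
      linarith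
    have h6 := SI.int_dyadic _ hcont V T₁ (⌊2 * L⌋₊ + 1) T₀ (by linarith) hT₀₁ hJ hblock hV0
    refine h6.trans (le_trans ?_ hfin)
    apply mul_le_mul_of_nonneg_right _ hV0
    push_cast
    have : (⌊2 * L⌋₊ : ℝ) ≤ 2 * L := Nat.floor_le (by linarith)
    linarith

end Pool.Agent.NRW
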