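import Pool.Agent.NRW.St
import Pool.Agent.BVX.A9

set_option autoImplicit false

/-!
# NRW [WLong]: the long averages in a residue class
-/

namespace Pool.Agent.NRW

open Finset Filter
open Pool.Agent.GBQ (lam)
open Pool.Agent.SI (IsW Wd)

private theorem wlong_w0 {w : ℝ → ℝ} (hw : IsW w) {x : ℝ} (hx : x ≤ 0) : w x = 0 := by
  by_contra h
  exact absurd (hw.supp x h).1 (not_lt.mpr hx)

private theorem wlong_cs {w : ℝ → ℝ} (hw : IsW w) : HasCompactSupport w := by
  apply HasCompactSupport.of_support_subset_isCompact (isCompact_Icc (a := (0 : ℝ)) (b := 1))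
  intro x hx
  exact ⟨(hw.supp x hx).1.le, (hw.supp x hx).2.le⟩

private theorem wlong_bd {w : ℝ → ℝ} (hw : IsW w) : ∃ W1 : ℝ, ∀ x, |deriv w x| ≤ W1 := by
  have h2 : Continuous (deriv w) := hw.smooth.continuous_deriv (by simp)
  obtain ⟨C, hC⟩ := h2.bounded_above_of_compact_support (wlong_cs hw).deriv
  exact ⟨C, fun x => by simpa [Real.norm_eq_abs] using hC x⟩

private theorem wlong_bd0 {w : ℝ → ℝ} (hw : IsW w) : ∃ W0 : ℝ, ∀ x, |w x| ≤ W0 := by
  obtain ⟨C, hC⟩ := hw.smooth.continuous.bounded_above_of_compact_support (wlong_cs hw)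
  exact ⟨C, fun x => by simpa [Real.norm_eq_abs] using hC x⟩

/-- the main term -/
private theorem wlong_int {w : ℝ → ℝ} (hw : IsW w) {δ y N : ℝ} (hδ : 0 < δ) (hN : 1 ≤ N)
    (hy0 : 0 ≤ y) :
    0 ≤ ∫ t in (1 : ℝ)..N, Wd w δ (Real.log t - y) ∧
    ∫ t in (1 : ℝ)..N, Wd w δ (Real.log t - y) ≤ Real.exp (y + δ) ∧
    (y + δ ≤ Real.log N → Real.exp y ≤ ∫ t in (1 : ℝ)..N, Wd w δ (Real.log t - y)) := by
  have hwc : Continuous w := hw.smooth.continuous
  have hpos : ∀ t ∈ Set.uIcc (1 : ℝ) N, 0 < t := by
    intro t ht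
    rw [Set.uIcc_of_le hN] at ht
    linarith [ht.1]
  have hf : ∀ t ∈ Set.uIcc (1 : ℝ) N,
      HasDerivAt (fun t : ℝ => (Real.log t - y) / δ) (t⁻¹ / δ) t := by
    intro t ht
    exact ((Real.hasDerivAt_log (hpos t ht).ne').sub_const y).div_const δ
  have hf' : ContinuousOn (fun t : ℝ => t⁻¹ / δ) (Set.uIcc (1 : ℝ) N) := by
    apply ContinuousOn.div_const
    exact ContinuousOn.inv₀ continuousOn_id (fun t ht => (hpos t ht).ne')
  have h1 := intervalIntegral.integral_comp_mul_deriv hf hf' hwc
  have hfc : ContinuousOn (fun t : ℝ => (Real.log t - y) / δ) (Set.uIcc (1 : ℝ) N) := by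
    intro t ht
    exact (hf t ht).continuousAt.continuousWithinAt
  have hGc : ContinuousOn (fun t : ℝ => Wd w δ (Real.log t - y)) (Set.uIcc (1 : ℝ) N) := by
    unfold Wd
    exact (hwc.comp_continuousOn hfc).div_const δ
  have hwi : MeasureTheory.Integrable w := hwc.integrable_of_hasCompactSupport (wlong_cs hw)
  have hii : ∀ c : ℝ, IntervalIntegrable (fun t : ℝ => c *
      ((w ∘ fun t : ℝ => (Real.log t - y) / δ) t * (t⁻¹ / δ))) MeasureTheory.volume 1 N := by
    intro c
    apply ContinuousOn.intervalIntegrable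
    exact continuousOn_const.mul ((hwc.comp_continuousOn hfc).mul hf')
  refine ⟨?_, ?_, ?_⟩
  · apply intervalIntegral.integral_nonneg hN
    intro t _
    exact div_nonneg (hw.nonneg _) hδ.le
  · have h2 : ∫ x in ((Real.log 1 - y) / δ)..((Real.log N - y) / δ), w x ≤ 1 := by
      have hab : (Real.log 1 - y) / δ ≤ (Real.log N - y) / δ := by
        apply div_le_div_of_nonneg_right _ hδ.le
        have := Real.log_le_log one_pos hN
        linarith
      rw [intervalIntegral.integral_of_le hab, ← hw.int]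
      exact MeasureTheory.setIntegral_le_integral hwi (Eventually.of_forall hw.nonneg)
    calc ∫ t in (1 : ℝ)..N, Wd w δ (Real.log t - y) ≤ ∫ t in (1 : ℝ)..N, Real.exp (y + δ) *
          ((w ∘ fun t : ℝ => (Real.log t - y) / δ) t * (t⁻¹ / δ)) := by
          apply intervalIntegral.integral_mono_on hN hGc.intervalIntegrable (hii _)
          intro t ht
          have ht0 : 0 < t := by linarith [ht.1]
          simp only [Function.comp, Wd]
          by_cases h0 : w ((Real.log t - y) / δ) = 0
          · rw [h0]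
            simp
          · have h3 := (hw.supp _ h0).2
            rw [div_lt_one hδ] at h3
            have h5 : t ≤ Real.exp (y + δ) := by
              rw [← Real.exp_log ht0]
              exact Real.exp_le_exp.mpr (by linarith)
            have h6 : 1 ≤ Real.exp (y + δ) * t⁻¹ := by
              rw [← div_eq_mul_inv, one_le_div ht0]
              exact h5
            have h7 : 0 ≤ w ((Real.log t - y) / δ) / δ := div_nonneg (hw.nonneg _) hδ.le
            calc w ((Real.log t - y) / δ) / δ = 1 * (w ((Real.log t - y) / δ) / δ) :=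
                  (one_mul _).symm
              _ ≤ (Real.exp (y + δ) * t⁻¹) * (w ((Real.log t - y) / δ) / δ) :=
                  mul_le_mul_of_nonneg_right h6 h7
              _ = Real.exp (y + δ) * (w ((Real.log t - y) / δ) * (t⁻¹ / δ)) := by ring
      _ = Real.exp (y + δ) * ∫ x in ((Real.log 1 - y) / δ)..((Real.log N - y) / δ), w x := by
          rw [intervalIntegral.integral_const_mul, h1]
      _ ≤ Real.exp (y + δ) * 1 := mul_le_mul_of_nonneg_left h2 (Real.exp_pos _).le
      _ = _ := mul_one _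
  · intro hyN
    have h2 : ∫ x in ((Real.log 1 - y) / δ)..((Real.log N - y) / δ), w x = 1 := by
      refine Eq.trans ?_ hw.int
      apply intervalIntegral.integral_eq_integral_of_support_subset
      intro x hx
      have hx' := hw.supp x hx
      constructor
      · rw [Real.log_one]
        have : (0 - y) / δ ≤ 0 := div_nonpos_of_nonpos_of_nonneg (by linarith) hδ.le
        linarith [hx'.1]
      · have : 1 ≤ (Real.log N - y) / δ := by
          rw [le_div_iff₀ hδ]
          linarith
        linarith [hx'.2]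
    rw [h2] at h1
    calc Real.exp y = Real.exp y * ∫ t in (1 : ℝ)..N,
          (w ∘ fun t : ℝ => (Real.log t - y) / δ) t * (t⁻¹ / δ) := by rw [h1, mul_one]
      _ = ∫ t in (1 : ℝ)..N,
          Real.exp y * ((w ∘ fun t : ℝ => (Real.log t - y) / δ) t * (t⁻¹ / δ)) := by
          rw [intervalIntegral.integral_const_mul]
      _ ≤ ∫ t in (1 : ℝ)..N, Wd w δ (Real.log t - y) := by
          apply intervalIntegral.integral_mono_on hN (hii _) hGc.intervalIntegrable
          intro t ht
          have ht0 : 0 < t := by linarith [ht.1]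
          simp only [Function.comp, Wd]
          by_cases h0 : w ((Real.log t - y) / δ) = 0
          · rw [h0]
            simp
          · have h3 := (hw.supp _ h0).1
            have h4 : 0 < Real.log t - y := by
              by_contra hneg
              exact absurd h3 (not_lt.mpr (div_nonpos_of_nonpos_of_nonneg (not_lt.mp hneg) hδ.le))
            have h5 : Real.exp y ≤ t := by
              rw [← Real.exp_log ht0]
              exact Real.exp_le_exp.mpr (by linarith)
            have h6 : Real.exp y * t⁻¹ ≤ 1 := by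
              rw [← div_eq_mul_inv, div_le_one ht0]
              exact h5
            have h7 : 0 ≤ w ((Real.log t - y) / δ) / δ := div_nonneg (hw.nonneg _) hδ.le
            calc Real.exp y * (w ((Real.log t - y) / δ) * (t⁻¹ / δ)) =
                  (Real.exp y * t⁻¹) * (w ((Real.log t - y) / δ) / δ) := by ring
              _ ≤ 1 * (w ((Real.log t - y) / δ) / δ) := mul_le_mul_of_nonneg_right h6 h7
              _ = _ := one_mul _

private theorem wlong_core {w : ℝ → ℝ} (hw : IsW w) {W0 W1 : ℝ} (hW0 : ∀ x, |w x| ≤ W0)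
    (hW1 : ∀ x, |deriv w x| ≤ W1) {X : ℕ} (hX : 1 ≤ X) {δ y E0 p : ℝ} (hδ : 0 < δ)
    (hy1 : Real.log X ≤ y) (c : ℕ → ℝ) (hc : c 0 = 0)
    (hE : ∀ t ∈ Set.Ioc (1 : ℝ) ((3 * X : ℕ) : ℝ), |∑ k ∈ Icc 0 ⌊t⌋₊, c k - t / p| ≤ E0) :
    |∑ n ∈ Icc X (3 * X), c n * Wd w δ (Real.log n - y) -
      (∫ t in (1 : ℝ)..((3 * X : ℕ) : ℝ), Wd w δ (Real.log t - y)) / p| ≤
      W0 / δ * E0 + W1 / δ ^ 2 * E0 * Real.log ((3 * X : ℕ) : ℝ) := by
  have hXR : (1 : ℝ) ≤ X := by exact_mod_cast hX
  have hy0 : 0 ≤ y := (Real.log_nonneg hXR).trans hy1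
  set N : ℝ := ((3 * X : ℕ) : ℝ) with hNdef
  have hN1' : (1 : ℝ) < N := by
    rw [hNdef]
    exact_mod_cast (by omega : 1 < 3 * X)
  have hN1 : (1 : ℝ) ≤ N := hN1'.le
  set ψ : ℝ → ℝ := fun t => ∑ k ∈ Icc 0 ⌊t⌋₊, c k with hψ
  set G : ℝ → ℝ := fun t => Wd w δ (Real.log t - y) with hG
  set G' : ℝ → ℝ := fun t => deriv w ((Real.log t - y) / δ) * (t⁻¹ / δ) / δ with hG'
  have hwd : Differentiable ℝ w := hw.smooth.differentiable (by simp)
  have hGd : ∀ t : ℝ, 0 < t → HasDerivAt G (G' t) t := by
    intro t ht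
    have h1 : HasDerivAt (fun t : ℝ => (Real.log t - y) / δ) (t⁻¹ / δ) t :=
      ((Real.hasDerivAt_log ht.ne').sub_const y).div_const δ
    have h2 := (hwd ((Real.log t - y) / δ)).hasDerivAt.comp t h1
    exact h2.div_const δ
  have hcd : Continuous (deriv w) := hw.smooth.continuous_deriv (by simp)
  have hG'c : ContinuousOn G' (Set.Icc 1 N) := by
    intro t ht
    have ht0 : 0 < t := by linarith [ht.1]
    apply ContinuousAt.continuousWithinAt
    have c1 : ContinuousAt (fun t : ℝ => (Real.log t - y) / δ) t :=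
      ((Real.continuousAt_log ht0.ne').sub continuousAt_const).div_const δ
    have c2 : ContinuousAt (fun t : ℝ => deriv w ((Real.log t - y) / δ)) t :=
      hcd.continuousAt.comp c1
    exact (c2.mul ((continuousAt_inv₀ ht0.ne').div_const δ)).div_const δ
  have hdG : ∀ t ∈ Set.Icc 1 N, deriv G t = G' t := by
    intro t ht
    exact (hGd t (by linarith [ht.1])).deriv
  have hG0 : ∀ t : ℝ, Real.log t ≤ y → G t = 0 := by
    intro t ht
    simp only [hG, Wd]
    rw [wlong_w0 hw (div_nonpos_of_nonpos_of_nonneg (by linarith) hδ.le), zero_div]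
  have hdGi : MeasureTheory.IntegrableOn (deriv G) (Set.Icc 1 N) := by
    have : MeasureTheory.IntegrableOn G' (Set.Icc 1 N) := hG'c.integrableOn_Icc
    exact this.congr_fun (fun t ht => (hdG t ht).symm) measurableSet_Icc
  -- Abel summation
  have hfl : ⌊N⌋₊ = 3 * X := by rw [hNdef, Nat.floor_natCast]
  have key1 : ∑ k ∈ Icc 0 (3 * X), G k * c k =
      G N * ψ N - ∫ t in (1 : ℝ)..N, G' t * ψ t := by
    have h := sum_mul_eq_sub_integral_mul₀' (f := G) c hc (3 * X)
      (fun t ht => (hGd t (by linarith [ht.1])).differentiableAt) hdGi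
    rw [h, ← hNdef, intervalIntegral.integral_of_le hN1]
    have e1 : ψ N = ∑ k ∈ Icc 0 (3 * X), c k := by
      simp only [hψ]
      rw [hfl]
    rw [e1]
    congr 1
    apply MeasureTheory.setIntegral_congr_fun measurableSet_Ioc
    intro t ht
    simp only [hψ]
    rw [hdG t ⟨ht.1.le, ht.2⟩]
  have hi1 : IntervalIntegrable (fun t => G' t * ψ t) MeasureTheory.volume 1 N := by
    rw [intervalIntegrable_iff_integrableOn_Icc_of_le hN1]
    exact integrableOn_mul_sum_Icc _ zero_le_one hG'c.integrableOn_Icc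
  have hi2 : IntervalIntegrable (fun t => G' t * (t / p)) MeasureTheory.volume 1 N := by
    apply ContinuousOn.intervalIntegrable
    rw [Set.uIcc_of_le hN1]
    exact hG'c.mul (continuousOn_id.div_const p)
  have key2 : ∫ t in (1 : ℝ)..N, G' t * ψ t =
      (∫ t in (1 : ℝ)..N, G' t * (t / p)) + ∫ t in (1 : ℝ)..N, G' t * (ψ t - t / p) := by
    rw [← intervalIntegral.integral_add hi2]
    · apply intervalIntegral.integral_congr
      intro t _
      simp only
      ring
    · have e : (fun t => G' t * (ψ t - t / p)) = fun t => G' t * ψ t - G' t * (t / p) := by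
        funext t
        ring
      rw [e]
      exact hi1.sub hi2
  have key3 : ∫ t in (1 : ℝ)..N, G' t * (t / p) = (N * G N - ∫ t in (1 : ℝ)..N, G t) / p := by
    have h := intervalIntegral.integral_mul_deriv_eq_deriv_mul (a := 1) (b := N)
      (u := fun t : ℝ => t) (v := G) (u' := fun _ => (1 : ℝ)) (v' := G')
      (fun t _ => hasDerivAt_id t)
      (fun t ht => by
        rw [Set.uIcc_of_le hN1] at ht
        exact hGd t (by linarith [ht.1]))
      intervalIntegrable_const
      (by
        apply ContinuousOn.intervalIntegrable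
        rw [Set.uIcc_of_le hN1]
        exact hG'c)
    have hG1 : G 1 = 0 := hG0 1 (by rw [Real.log_one]; exact hy0)
    rw [hG1] at h
    calc ∫ t in (1 : ℝ)..N, G' t * (t / p) = ∫ t in (1 : ℝ)..N, (t * G' t) / p := by
          apply intervalIntegral.integral_congr
          intro t _
          simp only
          ring
      _ = (∫ t in (1 : ℝ)..N, t * G' t) / p := intervalIntegral.integral_div _ _
      _ = _ := by
          rw [h]
          simp
  have hEN : |ψ N - N / p| ≤ E0 := hE N ⟨hN1', le_rfl⟩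
  have hE0 : 0 ≤ E0 := (abs_nonneg _).trans hEN
  have key5 : ‖∫ t in (1 : ℝ)..N, G' t * (ψ t - t / p)‖ ≤
      ∫ t in (1 : ℝ)..N, W1 / δ ^ 2 * E0 * t⁻¹ := by
    apply intervalIntegral.norm_integral_le_of_norm_le hN1
    · apply Eventually.of_forall
      intro t ht
      have ht0 : 0 < t := by linarith [ht.1]
      rw [norm_mul, Real.norm_eq_abs, Real.norm_eq_abs]
      have h1 : |G' t| ≤ W1 / δ ^ 2 * t⁻¹ := by
        simp only [hG']
        rw [abs_div, abs_mul, abs_of_pos hδ, abs_of_pos (by positivity : 0 < t⁻¹ / δ)]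
        rw [div_le_iff₀ hδ]
        calc |deriv w ((Real.log t - y) / δ)| * (t⁻¹ / δ) ≤ W1 * (t⁻¹ / δ) :=
              mul_le_mul_of_nonneg_right (hW1 _) (by positivity)
          _ = W1 / δ ^ 2 * t⁻¹ * δ := by
              field_simp
      have h2 := hE t ht
      calc |G' t| * |ψ t - t / p| ≤ (W1 / δ ^ 2 * t⁻¹) * E0 :=
            mul_le_mul h1 h2 (abs_nonneg _) ((abs_nonneg _).trans h1)
        _ = _ := by ring
    · apply ContinuousOn.intervalIntegrable
      rw [Set.uIcc_of_le hN1]
      apply continuousOn_const.mul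
      exact ContinuousOn.inv₀ continuousOn_id (fun t ht => by
        have : (0 : ℝ) < t := by linarith [ht.1]
        exact this.ne')
  have key6 : ∫ t in (1 : ℝ)..N, W1 / δ ^ 2 * E0 * t⁻¹ = W1 / δ ^ 2 * E0 * Real.log N := by
    rw [intervalIntegral.integral_const_mul, integral_inv_of_pos one_pos (by linarith), div_one]
  rw [key6, Real.norm_eq_abs] at key5
  have key7 : |G N * (ψ N - N / p)| ≤ W0 / δ * E0 := by
    rw [abs_mul]
    refine mul_le_mul ?_ hEN (abs_nonneg _) ?_
    · simp only [hG, Wd]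
      rw [abs_div, abs_of_pos hδ]
      exact div_le_div_of_nonneg_right (hW0 _) hδ.le
    · exact div_nonneg ((abs_nonneg _).trans (hW0 0)) hδ.le
  have hsum : ∑ n ∈ Icc X (3 * X), c n * Wd w δ (Real.log n - y) =
      ∑ k ∈ Icc 0 (3 * X), G k * c k := by
    rw [Finset.sum_congr rfl (fun n _ => mul_comm _ _)]
    apply Finset.sum_subset
    · intro n hn
      rw [Finset.mem_Icc] at hn ⊢
      exact ⟨Nat.zero_le _, hn.2⟩
    · intro n hn hn'
      rw [Finset.mem_Icc] at hn hn'
      have hlt : n < X := by omega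
      have : G n = 0 := by
        apply hG0
        rcases Nat.eq_zero_or_pos n with h | h
        · rw [h]
          simpa using hy0
        · refine (Real.log_le_log (by exact_mod_cast h) ?_).trans hy1
          exact_mod_cast hlt.le
      simp only [hG] at this
      rw [this, zero_mul]
  rw [hsum, key1, key2, key3]
  have e : G N * ψ N - ((N * G N - ∫ t in (1 : ℝ)..N, G t) / p +
      ∫ t in (1 : ℝ)..N, G' t * (ψ t - t / p)) - (∫ t in (1 : ℝ)..N, G t) / p =
      G N * (ψ N - N / p) - ∫ t in (1 : ℝ)..N, G' t * (ψ t - t / p) := by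
    ring
  rw [e]
  exact (abs_sub _ _).trans (add_le_add key7 key5)

theorem thm_WLong : St_WLong := by
  intro w hw A D B
  obtain ⟨W0, hW0⟩ := wlong_bd0 hw
  obtain ⟨W1, hW1⟩ := wlong_bd hw
  have hW0' : 0 ≤ W0 := (abs_nonneg _).trans (hW0 0)
  have hW1' : 0 ≤ W1 := (abs_nonneg _).trans (hW1 0)
  obtain ⟨N0, hN0⟩ := eventually_atTop.mp (Pool.Agent.BVX.sw_ap (A + 2 * B + 2) D)
  have e1 : ∀ᶠ X : ℕ in atTop, Real.log (X : ℝ) ^ (A + 2 * B + 2) ≤ X := by
    have h := (Real.isLittleO_pow_log_id_atTop (n := A + 2 * B + 2)).bound one_pos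
    have h' := tendsto_natCast_atTop_atTop (R := ℝ) |>.eventually h
    filter_upwards [h', eventually_ge_atTop 1] with X hX hX1
    simp only [one_mul, id, Real.norm_eq_abs] at hX
    rw [abs_of_nonneg (by positivity : (0 : ℝ) ≤ (X : ℝ))] at hX
    exact (le_abs_self _).trans hX
  have hlog : Tendsto (fun X : ℕ => Real.log (X : ℝ)) atTop atTop :=
    Real.tendsto_log_atTop.comp tendsto_natCast_atTop_atTop
  have e2 : ∀ᶠ X : ℕ in atTop, 4 * W0 + 8 * W1 + 3 + 1 / Real.log (6 / 5) ≤ Real.log (X : ℝ) :=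
    hlog.eventually_ge_atTop _
  obtain ⟨X0, hX0⟩ := eventually_atTop.mp (e1.and (e2.and (eventually_ge_atTop (max N0 3))))
  refine ⟨X0, ?_⟩
  intro X q b hX hq hqD hb y hy1 hy2
  obtain ⟨f1, f2, f3⟩ := hX0 X hX
  have hXN : N0 ≤ 3 * X := by
    have := le_max_left N0 3
    omega
  have hX3 : 3 ≤ X := (le_max_right N0 3).trans f3
  have hX1 : 1 ≤ X := by omega
  have hXR : (3 : ℝ) ≤ X := by exact_mod_cast hX3
  set L : ℝ := Real.log X with hL
  have hl65 : 0 < Real.log (6 / 5) := Real.log_pos (by norm_num)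
  have hinv : 0 < 1 / Real.log (6 / 5) := by positivity
  have hL3 : 3 ≤ L := by linarith
  have hL0 : 0 < L := by linarith
  have hL1 : 1 ≤ L := by linarith
  set δ : ℝ := 1 / L ^ B with hδdef
  have hδ : 0 < δ := by positivity
  have hδ1 : δ ≤ 1 := by
    rw [hδdef, div_le_one (by positivity)]
    exact one_le_pow₀ hL1
  have hp : (1 : ℝ) ≤ (q.totient : ℝ) := by
    exact_mod_cast Nat.totient_pos.2 (by omega)
  have hlog3' : Real.log ((3 * X : ℕ) : ℝ) ≤ 2 * L := by
    have h1 : ((3 * X : ℕ) : ℝ) ≤ (X : ℝ) ^ 2 := by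
      push_cast
      nlinarith
    have h2 := Real.log_le_log (by positivity) h1
    rw [Real.log_pow] at h2
    push_cast at h2 ⊢
    linarith
  have hlog3'' : L ≤ Real.log ((3 * X : ℕ) : ℝ) := by
    apply Real.log_le_log (by positivity)
    push_cast
    linarith
  have hy0 : 0 ≤ y := by linarith
  have hN1 : (1 : ℝ) ≤ ((3 * X : ℕ) : ℝ) := by
    push_cast
    linarith
  have hey : Real.exp y ≤ 5 * X / 2 := by
    rw [← Real.exp_log (by positivity : (0 : ℝ) < 5 * X / 2)]
    exact Real.exp_le_exp.mpr hy2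
  set E0 : ℝ := 4 * X / L ^ (A + 2 * B + 2) with hE0
  have hcore := wlong_core hw hW0 hW1 hX1 hδ (E0 := E0) (p := (q.totient : ℝ)) hy1 (ci q b lam)
    (by
      unfold ci lam
      split_ifs
      · exact ArithmeticFunction.map_zero
      · rfl) ?_
  · obtain ⟨i1, i2, i3⟩ := wlong_int hw hδ hN1 hy0
    set I : ℝ := ∫ t in (1 : ℝ)..((3 * X : ℕ) : ℝ), Wd w δ (Real.log t - y) with hI
    have h1 : W0 / δ * E0 + W1 / δ ^ 2 * E0 * Real.log ((3 * X : ℕ) : ℝ) ≤ X / L ^ A := by
      have g1 : W0 / δ * E0 ≤ 4 * W0 * X / L ^ (A + 1) := by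
        have : W0 / δ * E0 = 4 * W0 * X / L ^ (A + 1) * (1 / L ^ (B + 1)) := by
          rw [hE0, hδdef]
          field_simp
          ring
        rw [this]
        refine mul_le_of_le_one_right (by positivity) ?_
        rw [div_le_one (by positivity)]
        exact one_le_pow₀ hL1
      have g2 : W1 / δ ^ 2 * E0 * Real.log ((3 * X : ℕ) : ℝ) ≤ 8 * W1 * X / L ^ (A + 1) := by
        calc W1 / δ ^ 2 * E0 * Real.log ((3 * X : ℕ) : ℝ) ≤ W1 / δ ^ 2 * E0 * (2 * L) := by
              apply mul_le_mul_of_nonneg_left hlog3' (by positivity)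
          _ = 8 * W1 * X / L ^ (A + 1) := by
              rw [hE0, hδdef]
              field_simp
              ring
      have g3 : 4 * W0 * X / L ^ (A + 1) + 8 * W1 * X / L ^ (A + 1) ≤ X / L ^ A := by
        rw [← add_div, div_le_div_iff₀ (by positivity) (by positivity), pow_succ]
        have g4 : 4 * W0 * X + 8 * W1 * X ≤ X * L := by nlinarith
        calc (4 * W0 * X + 8 * W1 * X) * L ^ A ≤ X * L * L ^ A :=
              mul_le_mul_of_nonneg_right g4 (by positivity)
          _ = X * (L ^ A * L) := by ring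
      linarith
    have h2 : |I - Real.exp y| ≤ 5 * X * δ := by
      have j1 : Real.exp (y + δ) - Real.exp y ≤ 5 * X * δ := by
        have j2 := Real.abs_exp_sub_one_le (x := δ) (by rw [abs_of_pos hδ]; exact hδ1)
        rw [abs_of_pos hδ] at j2
        have j3 := (le_abs_self _).trans j2
        rw [Real.exp_add]
        have j4 : Real.exp y * (Real.exp δ - 1) ≤ Real.exp y * (2 * δ) :=
          mul_le_mul_of_nonneg_left j3 (Real.exp_pos _).le
        have j5 : Real.exp y * (2 * δ) ≤ 5 * X / 2 * (2 * δ) :=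
          mul_le_mul_of_nonneg_right hey (by positivity)
        linarith
      rw [abs_le]
      constructor
      · rcases Nat.eq_zero_or_pos B with hB | hB
        · have hd : δ = 1 := by
            rw [hδdef, hB, pow_zero, div_one]
          rw [hd]
          have : (0 : ℝ) ≤ X := by positivity
          linarith
        · have hLB : L ≤ L ^ B := by
            calc L = L ^ 1 := (pow_one _).symm
              _ ≤ L ^ B := pow_le_pow_right₀ hL1 hB
          have hδ2 : δ ≤ Real.log (6 / 5) := by
            rw [hδdef, div_le_iff₀ (by positivity)]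
            have h1 : 1 / Real.log (6 / 5) ≤ L ^ B := by linarith
            rw [div_le_iff₀ hl65] at h1
            linarith
          have hlog3 : Real.log ((3 * X : ℕ) : ℝ) = Real.log (6 / 5) + Real.log (5 * X / 2) := by
            rw [← Real.log_mul (by norm_num) (by positivity)]
            congr 1
            push_cast
            ring
          have := i3 (by rw [hlog3]; linarith)
          have h0 : 0 ≤ 5 * X * δ := by positivity
          linarith
      · linarith
    have h3 : |I / (q.totient : ℝ) - Real.exp y / (q.totient : ℝ)| ≤ 10 * X / L ^ B := by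
      rw [← sub_div, abs_div, abs_of_pos (by linarith : (0 : ℝ) < (q.totient : ℝ))]
      calc |I - Real.exp y| / (q.totient : ℝ) ≤ |I - Real.exp y| :=
            div_le_self (abs_nonneg _) hp
        _ ≤ 5 * X * δ := h2
        _ = 5 * X / L ^ B := by
            rw [hδdef]
            ring
        _ ≤ 10 * X / L ^ B := by
            apply div_le_div_of_nonneg_right _ (by positivity)
            linarith
    have h4 := abs_sub_le (∑ n ∈ Icc X (3 * X), ci q b lam n * Wd w δ (Real.log n - y))
      (I / (q.totient : ℝ)) (Real.exp y / (q.totient : ℝ))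
    linarith
  · intro t ht
    have ht0 : 0 ≤ t := by linarith [ht.1]
    have hfl : ⌊t⌋₊ ≤ 3 * X := by
      rw [← Nat.floor_natCast (R := ℝ) (3 * X)]
      exact Nat.floor_le_floor ht.2
    have hqD' : (q : ℝ) ≤ Real.log ((3 * X : ℕ) : ℝ) ^ D :=
      hqD.trans (pow_le_pow_left₀ hL0.le hlog3'' D)
    have hs := hN0 (3 * X) hXN q b hq hqD' hb ⌊t⌋₊ hfl
    have hre : Icc 0 ⌊t⌋₊ = range (⌊t⌋₊ + 1) := by
      ext n
      simp
    have hsum : ∑ k ∈ Icc 0 ⌊t⌋₊, ci q b lam k =
        ∑ n ∈ (range (⌊t⌋₊ + 1)).filter (fun n => n % q = b % q),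
          ArithmeticFunction.vonMangoldt n := by
      rw [hre, Finset.sum_filter]
      rfl
    rw [hsum]
    have h3 : ((3 * X : ℕ) : ℝ) / Real.log ((3 * X : ℕ) : ℝ) ^ (A + 2 * B + 2) ≤
        3 * X / L ^ (A + 2 * B + 2) := by
      push_cast
      push_cast at hlog3''
      gcongr
    have h4 : 1 ≤ X / L ^ (A + 2 * B + 2) := by
      rw [le_div_iff₀ (by positivity), one_mul]
      exact f1
    have h5 := Nat.floor_le ht0
    have h6 := Nat.lt_floor_add_one t
    have h7 : E0 = 3 * X / L ^ (A + 2 * B + 2) + X / L ^ (A + 2 * B + 2) := by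
      rw [hE0]
      ring
    have h8 : |(⌊t⌋₊ : ℝ) / (q.totient : ℝ) - t / (q.totient : ℝ)| ≤ 1 := by
      rw [← sub_div, abs_div, abs_of_pos (by linarith : (0 : ℝ) < (q.totient : ℝ))]
      refine (div_le_self (abs_nonneg _) hp).trans ?_
      rw [abs_le]
      constructor <;> linarith
    have h9 := abs_sub_le (∑ n ∈ (range (⌊t⌋₊ + 1)).filter (fun n => n % q = b % q),
      ArithmeticFunction.vonMangoldt n) ((⌊t⌋₊ : ℝ) / (q.totient : ℝ)) (t / (q.totient : ℝ))
    rw [h7]
    linarith

end Pool.Agent.NRW
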