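import Pool.Agent.NRW.St
import Pool.Agent.SI.MV

set_option autoImplicit false

/-!
# NRW / WMV: the mean value theorem with a character (from `SI.thm_MV`)
-/

namespace Pool.Agent.NRW

open Finset Filter
open Pool.Agent
open Pool.Agent.SI (nit DP fac cof siz IsW Wd)

theorem wmv_split {q : ℕ} (χ : DirichletCharacter ℂ q) (c : ℕ → ℝ) (M : ℕ) (t : ℝ) :
    DX χ c M t = DP (fun n => c n * (χ (n : ZMod q)).re) M t +
      Complex.I * DP (fun n => c n * (χ (n : ZMod q)).im) M t := by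
  unfold DX DP
  rw [Finset.mul_sum, ← Finset.sum_add_distrib]
  refine Finset.sum_congr rfl fun n _ => ?_
  calc ((c n : ℝ) : ℂ) * χ (n : ZMod q) * nit t n
      = ((c n : ℝ) : ℂ) * ((((χ (n : ZMod q)).re : ℝ) : ℂ) +
          (((χ (n : ZMod q)).im : ℝ) : ℂ) * Complex.I) * nit t n := by rw [Complex.re_add_im]
    _ = _ := by
        push_cast
        ring

theorem thm_WMV : St_WMV := by
  obtain ⟨C, hC, hMV⟩ := SI.thm_MV
  refine ⟨2 * C, by positivity, ?_⟩
  intro q χ c M T hM hT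
  set f : ℕ → ℝ := fun n => c n * (χ (n : ZMod q)).re with hf
  set g : ℕ → ℝ := fun n => c n * (χ (n : ZMod q)).im with hg
  have hcont : ∀ d : ℕ → ℝ, Continuous (fun t : ℝ => ‖DP d M t‖ ^ 2) := by
    intro d
    unfold DP nit
    fun_prop
  have hcX : Continuous (fun t : ℝ => ‖DX χ c M t‖ ^ 2) := by
    unfold DX nit
    fun_prop
  have h1 : ∫ t in (-T)..T, ‖DX χ c M t‖ ^ 2 ≤
      ∫ t in (-T)..T, (2 * ‖DP f M t‖ ^ 2 + 2 * ‖DP g M t‖ ^ 2) := by
    apply intervalIntegral.integral_mono_on (by linarith) (hcX.intervalIntegrable _ _)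
    · exact (((hcont f).const_smul (2 : ℝ)).add ((hcont g).const_smul (2 : ℝ))).intervalIntegrable _ _
    · intro t _
      rw [wmv_split χ c M t]
      have h2 : ‖DP f M t + Complex.I * DP g M t‖ ≤ ‖DP f M t‖ + ‖DP g M t‖ := by
        refine (norm_add_le _ _).trans ?_
        rw [norm_mul, Complex.norm_I, one_mul]
      have h3 := pow_le_pow_left₀ (norm_nonneg _) h2 2
      nlinarith [sq_nonneg (‖DP f M t‖ - ‖DP g M t‖)]
  have h4 : ∫ t in (-T)..T, (2 * ‖DP f M t‖ ^ 2 + 2 * ‖DP g M t‖ ^ 2) =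
      2 * (∫ t in (-T)..T, ‖DP f M t‖ ^ 2) + 2 * ∫ t in (-T)..T, ‖DP g M t‖ ^ 2 := by
    rw [intervalIntegral.integral_add, intervalIntegral.integral_const_mul,
      intervalIntegral.integral_const_mul]
    · exact ((hcont f).const_smul (2 : ℝ)).intervalIntegrable _ _
    · exact ((hcont g).const_smul (2 : ℝ)).intervalIntegrable _ _
  have h5 := hMV f M T hM hT
  have h6 := hMV g M T hM hT
  have h7 : ∑ n ∈ Icc 1 M, f n ^ 2 + ∑ n ∈ Icc 1 M, g n ^ 2 ≤ ∑ n ∈ Icc 1 M, c n ^ 2 := by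
    rw [← Finset.sum_add_distrib]
    refine Finset.sum_le_sum fun n _ => ?_
    have h8 : (χ (n : ZMod q)).re ^ 2 + (χ (n : ZMod q)).im ^ 2 ≤ 1 := by
      have h9 := Complex.normSq_eq_norm_sq (χ (n : ZMod q))
      have h10 := DirichletCharacter.norm_le_one χ (n : ZMod q)
      have h11 := Complex.normSq_apply (χ (n : ZMod q))
      have h12 : ‖χ (n : ZMod q)‖ ^ 2 ≤ 1 := pow_le_one₀ (norm_nonneg _) h10
      nlinarith
    simp only [hf, hg]
    have h13 := mul_le_mul_of_nonneg_left h8 (sq_nonneg (c n))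
    nlinarith
  have hlog : 0 ≤ Real.log (M : ℝ) := Real.log_natCast_nonneg M
  have hK : 0 ≤ C * (T + M * (1 + Real.log M)) := by
    have : (0 : ℝ) ≤ (M : ℝ) := Nat.cast_nonneg M
    positivity
  calc ∫ t in (-T)..T, ‖DX χ c M t‖ ^ 2
      ≤ 2 * (∫ t in (-T)..T, ‖DP f M t‖ ^ 2) + 2 * ∫ t in (-T)..T, ‖DP g M t‖ ^ 2 := h1.trans h4.le
    _ ≤ 2 * (C * (T + M * (1 + Real.log M))) *
          (∑ n ∈ Icc 1 M, f n ^ 2 + ∑ n ∈ Icc 1 M, g n ^ 2) := by
        rw [mul_add]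
        linarith
    _ ≤ 2 * (C * (T + M * (1 + Real.log M))) * ∑ n ∈ Icc 1 M, c n ^ 2 :=
        mul_le_mul_of_nonneg_left h7 (by positivity)
    _ = 2 * C * (T + M * (1 + Real.log M)) * ∑ n ∈ Icc 1 M, c n ^ 2 := by ring

end Pool.Agent.NRW
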