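import Mathlib
import Pool.Agent.NRW.St
import Pool.Agent.SI.Var

set_option autoImplicit false

/-!
# NRW / WOne: the integral of one product in a residue class
-/

namespace Pool.Agent.NRW

open Finset Filter
open Pool.Agent.SI (nit DP fac cof siz IsW Wd)
open scoped FourierTransform

theorem WOne_ci_le (q b : ℕ) (c : ℕ → ℝ) (n : ℕ) : |ci q b c n| ≤ |c n| := by
  unfold ci
  split_ifs
  · exact le_rfl
  · rw [abs_zero]
    exact abs_nonneg _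

theorem WOne_DX_cont {q : ℕ} (χ : DirichletCharacter ℂ q) (c : ℕ → ℝ) (M : ℕ) :
    Continuous (fun t => DX χ c M t) := by
  unfold DX nit
  fun_prop

/-- the integral over the characters -/
theorem WOne_chars (hC : St_WCls) (q b : ℕ) [NeZero q] (hb : b.Coprime q) (c : ℕ → ℝ) (M : ℕ)
    (u v V : ℝ) (huv : u ≤ v)
    (h : ∀ χ : DirichletCharacter ℂ q, ∫ t in u..v, ‖DX χ c M t‖ ^ 2 ≤ V) :
    ∫ t in u..v, ‖DP (ci q b c) M t‖ ^ 2 ≤ q.totient * V := by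
  have hi1 : IntervalIntegrable (fun t => ‖DP (ci q b c) M t‖ ^ 2) MeasureTheory.volume u v := by
    have := Pool.Agent.SI.var_DP_cont (ci q b c) M
    exact Continuous.intervalIntegrable (by fun_prop) _ _
  have hi2 : ∀ χ : DirichletCharacter ℂ q,
      IntervalIntegrable (fun t => ‖DX χ c M t‖ ^ 2) MeasureTheory.volume u v := by
    intro χ
    have := WOne_DX_cont χ c M
    exact Continuous.intervalIntegrable (by fun_prop) _ _
  have hi3 : IntervalIntegrable (fun t => ∑ χ : DirichletCharacter ℂ q, ‖DX χ c M t‖ ^ 2)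
      MeasureTheory.volume u v := by
    have : ∀ χ : DirichletCharacter ℂ q, Continuous (fun t => DX χ c M t) :=
      fun χ => WOne_DX_cont χ c M
    exact Continuous.intervalIntegrable (by fun_prop) _ _
  calc ∫ t in u..v, ‖DP (ci q b c) M t‖ ^ 2
      ≤ ∫ t in u..v, ∑ χ : DirichletCharacter ℂ q, ‖DX χ c M t‖ ^ 2 :=
        intervalIntegral.integral_mono huv hi1 hi3 fun t => hC q b hb c M t
    _ = ∑ χ : DirichletCharacter ℂ q, ∫ t in u..v, ‖DX χ c M t‖ ^ 2 :=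
        intervalIntegral.integral_finsetSum fun χ _ => hi2 χ
    _ ≤ ∑ _χ : DirichletCharacter ℂ q, V := Finset.sum_le_sum fun χ _ => h χ
    _ = q.totient * V := by
        rw [Finset.sum_const, nsmul_eq_mul, Finset.card_univ, ← Nat.card_eq_fintype_card,
          DirichletCharacter.card_eq_totient_of_hasEnoughRootsOfUnity ℂ q]

theorem WOne_dec (CK r τk X y N : ℝ) (k : ℕ) (hr : 0 < r) (hτ : 0 < τk)
    (hX : 0 < X) (hN0 : 0 ≤ N) (hy : 0 < y) (h1 : N ≤ 2 * (CK / r ^ (k + 1)))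
    (h2 : X ^ 2 / τk ≤ r ^ (2 * k)) (h3 : X ^ (-(11 / 10) : ℝ) * y ≤ r ^ 2) :
    N ^ 2 ≤ 4 * CK ^ 2 * τk * X ^ (-(9 / 10) : ℝ) * y⁻¹ := by
  calc N ^ 2 ≤ (2 * (CK / r ^ (k + 1))) ^ 2 := by gcongr
    _ = 4 * CK ^ 2 * (r ^ (2 * k))⁻¹ * (r ^ 2)⁻¹ := by
      have : r ^ (k + 1) = r ^ k * r := pow_succ r k
      rw [mul_pow, div_pow, this, mul_pow, ← pow_mul, mul_comm k 2]
      field_simp
      ring
    _ ≤ 4 * CK ^ 2 * (X ^ 2 / τk)⁻¹ * (X ^ (-(11 / 10) : ℝ) * y)⁻¹ := by gcongr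
    _ = 4 * CK ^ 2 * τk * ((X ^ 2)⁻¹ * (X ^ (-(11 / 10) : ℝ))⁻¹) * y⁻¹ := by
      rw [mul_inv, inv_div]
      ring
    _ = _ := by
      have : (X ^ 2)⁻¹ * (X ^ (-(11 / 10) : ℝ))⁻¹ = X ^ (-(9 / 10) : ℝ) := by
        rw [← Real.rpow_natCast, ← Real.rpow_neg hX.le, ← Real.rpow_neg hX.le,
          ← Real.rpow_add hX]
        norm_num
      rw [this]

set_option maxHeartbeats 4000000 in
theorem thm_WOne (hC : St_WCls) (hI : St_WInt) (hCof : Pool.Agent.SI.St_Cof)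
    (hF : Pool.Agent.SI.St_Four) : St_WOne := by
  intro w hw A D
  obtain ⟨hP, hK, CL, hCL, hLip⟩ := hF w hw
  obtain ⟨-, -, c2, hc2⟩ := hCof
  obtain ⟨B₁, X₀', hInt⟩ := hI (A + 2 + D) D
  obtain ⟨C0, hC0, hW0⟩ := hK 0
  obtain ⟨CK, hCK, hWK⟩ := hK (20 + 1)
  set c3 : ℝ := 3 * c2 * 4 ^ c2 with hc3
  refine ⟨A + 3 + 3 * B₁ + 2 * c2, by omega, fun B hB => ?_⟩
  have ev : ∀ᶠ X : ℕ in atTop, X₀' ≤ X ∧ 3 ≤ X ∧ 3 ≤ Real.log X ∧
      2 * CL ^ 2 * c3 ^ 2 ≤ Real.log X ∧ 8 * C0 ^ 2 ≤ Real.log X ∧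
      1 * Real.log X ^ B ≤ (X : ℝ) ^ (9 / 20 : ℝ) ∧
      1 * Real.log X ^ B₁ ≤ (X : ℝ) ^ (3 / 5 : ℝ) ∧
      (4 * CK ^ 2 * (2 * Real.pi) ^ (2 * 20) * c3 ^ 2 * Real.pi) * Real.log X ^ (2 * c2 + A + 1) ≤
        (X : ℝ) ^ (9 / 10 : ℝ) := by
    filter_upwards [eventually_ge_atTop X₀', eventually_ge_atTop 3,
      Pool.Agent.SI.var_log_large 3,
      Pool.Agent.SI.var_log_large (2 * CL ^ 2 * c3 ^ 2),
      Pool.Agent.SI.var_log_large (8 * C0 ^ 2),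
      Pool.Agent.SI.var_log_pow 1 B (9 / 20) (by norm_num),
      Pool.Agent.SI.var_log_pow 1 B₁ (3 / 5) (by norm_num),
      Pool.Agent.SI.var_log_pow (4 * CK ^ 2 * (2 * Real.pi) ^ (2 * 20) * c3 ^ 2 * Real.pi)
        (2 * c2 + A + 1) (9 / 10) (by norm_num)] with X a1 a2 a3 a4 a5 a6 a7 a8
    exact ⟨a1, a2, a3, a4, a5, a6, a7, a8⟩
  obtain ⟨X₀, hX₀⟩ := eventually_atTop.mp ev
  refine ⟨X₀, ?_⟩
  intro X Z q b hX hq1 hqD hbq hZ l hl1 hl8 hlx hl3 hlX δ hδa hδb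
  obtain ⟨b1, b2, b3, b4, b5, b6, b7, b8⟩ := hX₀ X hX
  have : NeZero q := ⟨by omega⟩
  set Lg := Real.log X with hLg
  have hXR : (3 : ℝ) ≤ X := by exact_mod_cast b2
  have hX0 : (0 : ℝ) < X := by linarith
  have hX1 : (1 : ℝ) ≤ X := by linarith
  have hL0 : 0 < Lg := by linarith
  have hL1 : 1 ≤ Lg := by linarith
  set δ₁ : ℝ := 1 / Lg ^ B with hδ₁
  have hδ0 : 0 < δ := lt_of_lt_of_le (Real.rpow_pos_of_pos hX0 _) hδa
  have hδ₁0 : 0 < δ₁ := by positivity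
  have hδδ : δ ≤ δ₁ := by
    refine hδb.trans ?_
    rw [Real.rpow_neg hX0.le, hδ₁, ← one_div]
    exact one_div_le_one_div_of_le (by positivity) (by linarith)
  have hδ1 : δ ≤ 1 := by
    refine hδδ.trans ?_
    rw [hδ₁, div_le_one (by positivity)]
    exact one_le_pow₀ hL1
  -- size of the polynomial
  set c : ℕ → ℝ := ci q b (cof Z l) with hcdef
  set M : ℕ := 2 ^ (siz l + l.length) with hM
  set S : ℝ := c3 * X * Lg ^ c2 with hS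
  have hsiz : 1 + (siz l : ℝ) ≤ 4 * Lg := by
    have e1 : ((2 : ℝ)) ^ siz l ≤ 3 * X := by exact_mod_cast hl3
    have e2 : Real.log ((2 : ℝ) ^ siz l) ≤ Real.log ((X : ℝ) ^ 2) := by
      apply Real.log_le_log (by positivity)
      nlinarith
    rw [Real.log_pow, Real.log_pow] at e2
    have e3 := Real.log_two_gt_d9
    have e4 : (0 : ℝ) ≤ siz l := by positivity
    push_cast at e2
    nlinarith
  have hDS : ∀ t, ‖DP c M t‖ ≤ S := by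
    intro t
    have e0 : ∑ n ∈ Icc 1 M, |c n| ≤ ∑ n ∈ Icc 1 M, |cof Z l n| :=
      Finset.sum_le_sum fun n _ => WOne_ci_le q b (cof Z l) n
    refine (Pool.Agent.SI.var_DP_le _ _ _).trans (e0.trans ((hc2 Z l hl8).2.trans ?_))
    have e1 : ((2 : ℝ)) ^ siz l ≤ 3 * X := by exact_mod_cast hl3
    calc (c2 : ℝ) * 2 ^ siz l * (1 + (siz l : ℝ)) ^ c2 ≤ c2 * (3 * X) * (4 * Lg) ^ c2 := by
          gcongr
      _ = S := by rw [hS, hc3, mul_pow]; ring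
  have hS0 : 0 ≤ S := (norm_nonneg _).trans (hDS 0)
  have hc30 : 0 ≤ c3 := by positivity
  rw [(hP c M δ δ₁ hδ0 hδ₁0).2.2]
  set R₀ : ℝ := Lg ^ B₁ / (2 * Real.pi) with hR₀
  set R₁ : ℝ := (X : ℝ) ^ (3 / 5 : ℝ) / (2 * Real.pi) with hR₁
  have hpi := Real.pi_gt_three
  have hpi0 : 0 < 2 * Real.pi := by positivity
  have hR₀0 : 0 ≤ R₀ := by positivity
  have hR₀le : R₀ ≤ Lg ^ B₁ := by
    rw [hR₀]
    exact div_le_self (by positivity) (by linarith)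
  rw [one_mul] at b7
  have hRR : R₀ ≤ R₁ := by
    rw [hR₀, hR₁]
    gcongr
  set W : ℝ → ℂ := 𝓕 (fun x => ((w x : ℝ) : ℂ)) with hWdef
  set a : ℝ := (CL * (δ₁ * R₀)) ^ 2 * S ^ 2 with ha
  set bb : ℝ := 4 * CK ^ 2 * (2 * Real.pi) ^ (2 * 20) * (X : ℝ) ^ (-(9 / 10) : ℝ) * S ^ 2 with hbb
  have hsp := Pool.Agent.SI.var_split (fun ξ => ‖W (δ * ξ) - W (δ₁ * ξ)‖ ^ 2)
    (fun ξ => ‖DP c M (2 * Real.pi * ξ)‖ ^ 2) R₀ R₁ a (4 * C0 ^ 2) bb hR₀0 hRR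
    (by positivity) (by positivity) (fun _ => by positivity) (fun _ => by positivity)
    (by
      have := Pool.Agent.SI.var_DP_cont c M
      fun_prop)
    (by
      intro x
      rw [mul_neg, Pool.Agent.SI.var_DP_neg])
    (by
      intro x hx
      have e1 : ‖W (δ * x) - W (δ₁ * x)‖ ≤ CL * (δ₁ * R₀) := by
        refine (hLip _ _).trans ?_
        have e2 : |δ * x - δ₁ * x| ≤ δ₁ * R₀ := by
          rw [← sub_mul, abs_mul, abs_of_nonpos (by linarith : δ - δ₁ ≤ 0)]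
          have : -(δ - δ₁) ≤ δ₁ := by linarith
          gcongr
        gcongr
      rw [ha]
      have e3 := hDS (2 * Real.pi * x)
      gcongr)
    (by
      intro x
      have e1 : ∀ ξ, ‖W ξ‖ ≤ C0 := by
        intro ξ
        have := hW0 ξ
        simpa using this
      have e2 : ‖W (δ * x) - W (δ₁ * x)‖ ≤ 2 * C0 := by
        refine (norm_sub_le _ _).trans ?_
        linarith [e1 (δ * x), e1 (δ₁ * x)]
      calc ‖W (δ * x) - W (δ₁ * x)‖ ^ 2 ≤ (2 * C0) ^ 2 := by gcongr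
        _ = 4 * C0 ^ 2 := by ring)
    (by
      intro x hx
      have q0 : 0 < 1 + δ * |x| := by positivity
      have e1 : ‖W (δ * x)‖ ≤ CK / (1 + δ * |x|) ^ (20 + 1) := by
        have := hWK (δ * x)
        rwa [abs_mul, abs_of_pos hδ0] at this
      have e2 : ‖W (δ₁ * x)‖ ≤ CK / (1 + δ * |x|) ^ (20 + 1) := by
        have := hWK (δ₁ * x)
        rw [abs_mul, abs_of_pos hδ₁0] at this
        refine this.trans ?_
        gcongr
      have e3 : ‖W (δ * x) - W (δ₁ * x)‖ ≤ 2 * (CK / (1 + δ * |x|) ^ (20 + 1)) := by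
        refine (norm_sub_le _ _).trans ?_
        linarith
      have e4 : (X : ℝ) ^ (1 / 20 : ℝ) / (2 * Real.pi) ≤ 1 + δ * |x| := by
        have h1 : (X : ℝ) ^ (1 / 20 : ℝ) / (2 * Real.pi) ≤ δ * R₁ := by
          have g1 : (X : ℝ) ^ (1 / 20 : ℝ) =
              (X : ℝ) ^ (-(11 / 20) : ℝ) * (X : ℝ) ^ (3 / 5 : ℝ) := by
            rw [← Real.rpow_add hX0]
            norm_num
          rw [hR₁, g1, ← mul_div_assoc]
          gcongr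
        have : δ * R₁ ≤ δ * |x| := by gcongr
        linarith
      have e5 : (X : ℝ) ^ 2 / (2 * Real.pi) ^ (2 * 20) ≤ (1 + δ * |x|) ^ (2 * 20) := by
        calc (X : ℝ) ^ 2 / (2 * Real.pi) ^ (2 * 20) =
            ((X : ℝ) ^ (1 / 20 : ℝ)) ^ (2 * 20) / (2 * Real.pi) ^ (2 * 20) := by
              congr 1
              rw [← Real.rpow_natCast, ← Real.rpow_natCast, ← Real.rpow_mul hX0.le]
              congr 1
              norm_num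
          _ = ((X : ℝ) ^ (1 / 20 : ℝ) / (2 * Real.pi)) ^ (2 * 20) := by rw [div_pow]
          _ ≤ (1 + δ * |x|) ^ (2 * 20) :=
              pow_le_pow_left₀ (by positivity) e4 _
      have e6 : (X : ℝ) ^ (-(11 / 10) : ℝ) * (1 + x ^ 2) ≤ (1 + δ * |x|) ^ 2 := by
        have f2 : (X : ℝ) ^ (-(11 / 10) : ℝ) ≤ δ ^ 2 := by
          calc (X : ℝ) ^ (-(11 / 10) : ℝ) = ((X : ℝ) ^ (-(11 / 20) : ℝ)) ^ 2 := by
                rw [← Real.rpow_natCast, ← Real.rpow_mul hX0.le]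
                norm_num
            _ ≤ δ ^ 2 := by gcongr
        calc (X : ℝ) ^ (-(11 / 10) : ℝ) * (1 + x ^ 2) ≤ δ ^ 2 * (1 + x ^ 2) := by gcongr
          _ ≤ (1 + δ * |x|) ^ 2 := by
            rw [← sq_abs x]
            nlinarith [mul_nonneg hδ0.le (abs_nonneg x), mul_le_mul hδ1 hδ1 hδ0.le zero_le_one]
      have e7 : ‖W (δ * x) - W (δ₁ * x)‖ ^ 2 ≤
          4 * CK ^ 2 * (2 * Real.pi) ^ (2 * 20) * (X : ℝ) ^ (-(9 / 10) : ℝ) * (1 + x ^ 2)⁻¹ := by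
        exact WOne_dec CK (1 + δ * |x|) _ X (1 + x ^ 2) _ 20 q0 (by positivity) hX0
          (norm_nonneg _) (by positivity) e3 e5 e6
      have e8 : ‖DP c M (2 * Real.pi * x)‖ ^ 2 ≤ S ^ 2 := by
        have := hDS (2 * Real.pi * x)
        gcongr
      calc ‖W (δ * x) - W (δ₁ * x)‖ ^ 2 * ‖DP c M (2 * Real.pi * x)‖ ^ 2 ≤
          (4 * CK ^ 2 * (2 * Real.pi) ^ (2 * 20) * (X : ℝ) ^ (-(9 / 10) : ℝ) * (1 + x ^ 2)⁻¹) * S ^ 2 :=
            mul_le_mul e7 e8 (by positivity) (by positivity)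
        _ = bb * (1 + x ^ 2)⁻¹ := by rw [hbb]; ring)
  refine hsp.trans ?_
  clear hsp
  -- the three parts
  have hXX : 0 < (X : ℝ) ^ 2 / Lg ^ (A + 1) := by positivity
  have p1 : 2 * R₀ * a ≤ (X : ℝ) ^ 2 / Lg ^ (A + 1) := by
    rw [le_div_iff₀ (by positivity), ha, hS, hδ₁]
    calc 2 * R₀ * ((CL * (1 / Lg ^ B * R₀)) ^ 2 * (c3 * X * Lg ^ c2) ^ 2) * Lg ^ (A + 1)
        = (2 * CL ^ 2 * c3 ^ 2) * (X : ℝ) ^ 2 * (R₀ ^ 3 * Lg ^ (2 * c2 + A + 1) / Lg ^ (2 * B)) := by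
          field_simp
          ring
      _ ≤ Lg * (X : ℝ) ^ 2 * ((Lg ^ B₁) ^ 3 * Lg ^ (2 * c2 + A + 1) / Lg ^ (2 * B)) := by gcongr
      _ = (X : ℝ) ^ 2 * (Lg ^ (1 + B₁ * 3 + (2 * c2 + A + 1)) / Lg ^ (2 * B)) := by
          rw [← pow_mul, pow_add, pow_add, pow_one]
          ring
      _ ≤ (X : ℝ) ^ 2 * 1 := by
          gcongr
          rw [div_le_one (by positivity)]
          exact pow_le_pow_right₀ hL1 (by omega)
      _ = (X : ℝ) ^ 2 := mul_one _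
  have p2 : 2 * (4 * C0 ^ 2) * (∫ x in R₀..R₁, ‖DP c M (2 * Real.pi * x)‖ ^ 2) ≤
      (X : ℝ) ^ 2 / Lg ^ (A + 1) := by
    have e1 : ∫ x in R₀..R₁, ‖DP c M (2 * Real.pi * x)‖ ^ 2 =
        (2 * Real.pi)⁻¹ * ∫ t in (Lg ^ B₁)..((X : ℝ) ^ (3 / 5 : ℝ)), ‖DP c M t‖ ^ 2 := by
      rw [intervalIntegral.integral_comp_mul_left (fun t => ‖DP c M t‖ ^ 2) hpi0.ne',
        smul_eq_mul, hR₀, hR₁, mul_div_cancel₀ _ hpi0.ne', mul_div_cancel₀ _ hpi0.ne']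
    rw [e1]
    have e2 := WOne_chars hC q b hbq (cof Z l) M (Lg ^ B₁) ((X : ℝ) ^ (3 / 5 : ℝ))
      (X ^ 2 / Lg ^ (A + 2 + D)) b7 (fun χ => hInt X Z q χ b1 hq1 hqD hZ l hl1 hl8 hlx hl3 hlX)
    have e4 : (q.totient : ℝ) * ((X : ℝ) ^ 2 / Lg ^ (A + 2 + D)) ≤ (X : ℝ) ^ 2 / Lg ^ (A + 2) := by
      have f1 : (q.totient : ℝ) ≤ Lg ^ D :=
        (by exact_mod_cast Nat.totient_le q : (q.totient : ℝ) ≤ q).trans hqD
      calc (q.totient : ℝ) * ((X : ℝ) ^ 2 / Lg ^ (A + 2 + D)) ≤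
          Lg ^ D * ((X : ℝ) ^ 2 / Lg ^ (A + 2 + D)) := by gcongr
        _ = (X : ℝ) ^ 2 / Lg ^ (A + 2) := by
          rw [pow_add Lg (A + 2) D]
          field_simp
    have e5 := e2.trans e4
    have e3 : (2 * Real.pi)⁻¹ ≤ 1 := inv_le_one_of_one_le₀ (by linarith)
    calc 2 * (4 * C0 ^ 2) * ((2 * Real.pi)⁻¹ *
          ∫ t in (Lg ^ B₁)..((X : ℝ) ^ (3 / 5 : ℝ)), ‖DP c M t‖ ^ 2)
        ≤ 2 * (4 * C0 ^ 2) * ((2 * Real.pi)⁻¹ * ((X : ℝ) ^ 2 / Lg ^ (A + 2))) := by gcongr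
      _ ≤ 2 * (4 * C0 ^ 2) * (1 * ((X : ℝ) ^ 2 / Lg ^ (A + 2))) := by gcongr
      _ ≤ Lg * ((X : ℝ) ^ 2 / Lg ^ (A + 2)) := by
          rw [one_mul]
          gcongr
          linarith
      _ = (X : ℝ) ^ 2 / Lg ^ (A + 1) := by
          rw [pow_succ Lg (A + 1)]
          field_simp
  have p3 : bb * Real.pi ≤ (X : ℝ) ^ 2 / Lg ^ (A + 1) := by
    rw [le_div_iff₀ (by positivity), hbb, hS]
    calc 4 * CK ^ 2 * (2 * Real.pi) ^ (2 * 20) * (X : ℝ) ^ (-(9 / 10) : ℝ) *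
          (c3 * X * Lg ^ c2) ^ 2 * Real.pi * Lg ^ (A + 1)
        = (X : ℝ) ^ 2 * ((X : ℝ) ^ (-(9 / 10) : ℝ) *
          ((4 * CK ^ 2 * (2 * Real.pi) ^ (2 * 20) * c3 ^ 2 * Real.pi) *
            Lg ^ (2 * c2 + A + 1))) := by
          ring
      _ ≤ (X : ℝ) ^ 2 * ((X : ℝ) ^ (-(9 / 10) : ℝ) * (X : ℝ) ^ (9 / 10 : ℝ)) := by gcongr
      _ = (X : ℝ) ^ 2 := by
          rw [← Real.rpow_add hX0]
          norm_num
  calc 2 * R₀ * a + 2 * (4 * C0 ^ 2) * (∫ x in R₀..R₁, ‖DP c M (2 * Real.pi * x)‖ ^ 2) +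
        bb * Real.pi ≤ 3 * ((X : ℝ) ^ 2 / Lg ^ (A + 1)) := by linarith
    _ ≤ Lg * ((X : ℝ) ^ 2 / Lg ^ (A + 1)) := by gcongr
    _ = (X : ℝ) ^ 2 / Lg ^ A := by
      rw [pow_succ Lg A]
      field_simp

end Pool.Agent.NRW
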