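import Mathlib
import Pool.Agent.NRW.St
import Pool.Agent.SI.Cof

set_option autoImplicit false

/-!
# NRW / WPr: product formula for Dirichlet polynomials with a character
-/

namespace Pool.Agent.NRW

open Finset Filter
open Pool.Agent.SI (nit DP fac cof siz cof_nit_mul cof_fac_supp cof_supp)

private lemma WPr_mul {q : ℕ} (χ : DirichletCharacter ℂ q) (f g : ℕ → ℝ) (A B M : ℕ) (t : ℝ)
    (hf : ∀ n, f n ≠ 0 → n ≤ A) (hg : ∀ n, g n ≠ 0 → n ≤ B) (hM : A * B ≤ M) :
    DX χ (fun n => ∑ d ∈ n.divisors, f d * g (n / d)) M t = DX χ f A t * DX χ g B t := by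
  unfold DX
  rw [Finset.sum_mul_sum, ← Finset.sum_product']
  have hmap : ∀ p ∈ Icc 1 A ×ˢ Icc 1 B, p.1 * p.2 ∈ Icc 1 M := by
    intro p hp
    rw [Finset.mem_product, Finset.mem_Icc, Finset.mem_Icc] at hp
    rw [Finset.mem_Icc]
    exact ⟨Nat.mul_pos hp.1.1 hp.2.1, (Nat.mul_le_mul hp.1.2 hp.2.2).trans hM⟩
  rw [← Finset.sum_fiberwise_of_maps_to hmap]
  apply Finset.sum_congr rfl
  intro n hn
  rw [Finset.mem_Icc] at hn
  have h1 : ∑ d ∈ n.divisors, f d * g (n / d) =
      ∑ p ∈ n.divisorsAntidiagonal, f p.1 * g p.2 :=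
    (Nat.sum_divisorsAntidiagonal (f := fun x y => f x * g y)).symm
  beta_reduce
  rw [h1]
  push_cast
  rw [Finset.sum_mul, Finset.sum_mul]
  have h2 : ∑ p ∈ n.divisorsAntidiagonal,
      ((f p.1 : ℝ) : ℂ) * ((g p.2 : ℝ) : ℂ) * χ (n : ZMod q) * nit t n =
      ∑ p ∈ n.divisorsAntidiagonal,
        ((f p.1 : ℝ) : ℂ) * χ (p.1 : ZMod q) * nit t p.1 *
          (((g p.2 : ℝ) : ℂ) * χ (p.2 : ZMod q) * nit t p.2) := by
    apply Finset.sum_congr rfl
    intro p hp
    rw [Nat.mem_divisorsAntidiagonal] at hp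
    have hp1 : 1 ≤ p.1 := by
      rcases Nat.eq_zero_or_pos p.1 with h | h
      · rw [h, zero_mul] at hp; omega
      · exact h
    have hp2 : 1 ≤ p.2 := by
      rcases Nat.eq_zero_or_pos p.2 with h | h
      · rw [h, mul_zero] at hp; omega
      · exact h
    rw [← hp.1, cof_nit_mul t hp1 hp2, Nat.cast_mul, map_mul]
    ring
  rw [h2]
  symm
  apply Finset.sum_subset
  · intro p hp
    rw [Finset.mem_filter] at hp
    rw [Nat.mem_divisorsAntidiagonal]
    exact ⟨hp.2, by omega⟩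
  · intro p hp hp'
    rw [Nat.mem_divisorsAntidiagonal] at hp
    have hp1 : 1 ≤ p.1 := by
      rcases Nat.eq_zero_or_pos p.1 with h | h
      · rw [h, zero_mul] at hp; omega
      · exact h
    have hp2 : 1 ≤ p.2 := by
      rcases Nat.eq_zero_or_pos p.2 with h | h
      · rw [h, mul_zero] at hp; omega
      · exact h
    by_cases h3 : f p.1 = 0
    · rw [h3]; simp
    · by_cases h4 : g p.2 = 0
      · rw [h4]; simp
      · exact absurd (Finset.mem_filter.2 ⟨Finset.mem_product.2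
          ⟨Finset.mem_Icc.2 ⟨hp1, hf _ h3⟩, Finset.mem_Icc.2 ⟨hp2, hg _ h4⟩⟩, hp.1⟩) hp'

theorem thm_WPr : St_WPr := by
  intro q χ Z l t
  induction l with
  | nil =>
    simp [DX, siz, cof, nit]
  | cons x l ih =>
    obtain ⟨k, i⟩ := x
    rw [List.map_cons, List.prod_cons, ← ih]
    have h8 : siz ((k, i) :: l) = i + siz l := by simp [siz]
    have h9 : ((k, i) :: l).length = l.length + 1 := rfl
    rw [h8, h9]
    have h1 : cof Z ((k, i) :: l) = fun n => ∑ d ∈ n.divisors, fac k Z i d * cof Z l (n / d) := by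
      funext n
      rw [cof]
    rw [h1]
    apply WPr_mul
    · intro n hn
      exact (cof_fac_supp k Z i n hn).2.le
    · intro n hn
      exact (cof_supp Z l n hn).2
    · rw [← pow_add]
      apply le_of_eq
      congr 1
      ring

end Pool.Agent.NRW
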