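import Pool.Agent.NRW.St

set_option autoImplicit false

/-!
# NRW / WRem: one factor by its maximum, the others by the mean value theorem (as `SI/Rem.lean`)
-/

namespace Pool.Agent.NRW

open Finset Filter
open Pool.Agent
open Pool.Agent.GBQ (lam)
open Pool.Agent.SI (nit DP fac cof siz IsW Wd)

theorem thm_WRem (hP : St_WPr) (hM : St_WMV) (hC : SI.St_Cof) : St_WRem := by
  obtain ⟨-, hsupp, CC, hsum⟩ := hC
  obtain ⟨C2, hC2, hMV⟩ := hM
  refine ⟨⌈1024 * C2 * CC⌉₊ + (CC + 1), ?_⟩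
  intro q χ Z l x hlen hx T₁ T₂ U hT₁ hT₁₂ hU hbound
  classical
  set l' := l.erase x with hl'
  have hperm : l.Perm (x :: l') := List.perm_cons_erase hx
  have hsiz : siz l = x.2 + siz l' := by
    unfold siz
    rw [(hperm.map Prod.snd).sum_eq]
    simp
  have hlen' : l'.length ≤ 7 := by
    rw [hl', List.length_erase_of_mem hx]
    omega
  have hDP : ∀ t : ℝ, DX χ (cof Z l) (2 ^ (siz l + l.length)) t =
      DX χ (fac x.1 Z x.2) (2 ^ (x.2 + 1)) t * DX χ (cof Z l') (2 ^ (siz l' + l'.length)) t := by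
    intro t
    rw [hP, hP, (hperm.map _).prod_eq]
    simp
  set M : ℕ := 2 ^ (siz l' + l'.length) with hMd
  have hcont : Continuous (fun t : ℝ => ‖DX χ (cof Z l') M t‖ ^ 2) := by
    unfold DX nit
    fun_prop
  have hcont2 : Continuous (fun t : ℝ => ‖DX χ (cof Z l) (2 ^ (siz l + l.length)) t‖ ^ 2) := by
    unfold DX nit
    fun_prop
  have e1 : ∫ t in T₁..T₂, ‖DX χ (cof Z l) (2 ^ (siz l + l.length)) t‖ ^ 2 ≤
      ∫ t in T₁..T₂, U ^ 2 * ‖DX χ (cof Z l') M t‖ ^ 2 := by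
    apply intervalIntegral.integral_mono_on hT₁₂ (hcont2.intervalIntegrable _ _)
      ((continuous_const.mul hcont).intervalIntegrable _ _)
    intro t ht
    rw [hDP, norm_mul, mul_pow]
    apply mul_le_mul_of_nonneg_right _ (by positivity)
    exact pow_le_pow_left₀ (norm_nonneg _) (hbound t ht.1 ht.2) 2
  have e2 : ∫ t in T₁..T₂, ‖DX χ (cof Z l') M t‖ ^ 2 ≤ ∫ t in (-T₂)..T₂, ‖DX χ (cof Z l') M t‖ ^ 2 := by
    apply intervalIntegral.integral_mono_interval (by linarith) hT₁₂ le_rfl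
    · exact Filter.Eventually.of_forall fun t => by positivity
    · exact hcont.intervalIntegrable _ _
  have hM1 : 1 ≤ M := Nat.one_le_two_pow
  have e3 := hMV q χ (cof Z l') M T₂ hM1 (by linarith)
  have e4 := (hsum Z l' (by omega)).1
  have e5 : siz l - x.2 = siz l' := by omega
  rw [e5]
  set s' : ℕ := siz l' with hs'
  set s : ℝ := (s' : ℝ) with hs
  have hs0 : 0 ≤ s := Nat.cast_nonneg _
  have hT₂ : 0 < T₂ := by linarith
  have hMle : (M : ℝ) ≤ 128 * 2 ^ s' := by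
    have e6 : M ≤ 2 ^ (s' + 7) := Nat.pow_le_pow_right (by norm_num) (by omega)
    have e7 : (M : ℝ) ≤ 2 ^ (s' + 7) := by exact_mod_cast e6
    rw [pow_add] at e7
    linarith
  have hlogM : 1 + Real.log M ≤ 8 * (1 + s) := by
    have e6 : Real.log M = (s' + l'.length : ℕ) * Real.log 2 := by
      rw [hMd]
      push_cast
      rw [Real.log_pow]
      push_cast
      ring
    have e7 : Real.log 2 ≤ 1 := by
      have := Real.log_two_lt_d9
      linarith
    have e8 : ((s' + l'.length : ℕ) : ℝ) ≤ s + 7 := by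
      push_cast
      have : (l'.length : ℝ) ≤ 7 := by exact_mod_cast hlen'
      linarith
    have e9 : ((s' + l'.length : ℕ) : ℝ) * Real.log 2 ≤ (s + 7) * 1 :=
      mul_le_mul e8 e7 (Real.log_nonneg (by norm_num)) (by linarith)
    rw [e6]
    linarith
  have hlogM0 : 0 ≤ 1 + Real.log M := by
    have : 0 ≤ Real.log M := Real.log_nonneg (by exact_mod_cast hM1)
    linarith
  have e6 : T₂ + M * (1 + Real.log M) ≤ 1024 * (1 + s) * (T₂ + 2 ^ s') := by
    have e7 : (M : ℝ) * (1 + Real.log M) ≤ 128 * 2 ^ s' * (8 * (1 + s)) :=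
      mul_le_mul hMle hlogM hlogM0 (by positivity)
    have e8 : T₂ ≤ 1024 * (1 + s) * T₂ := by nlinarith
    calc T₂ + M * (1 + Real.log M) ≤ 1024 * (1 + s) * T₂ + 128 * 2 ^ s' * (8 * (1 + s)) := by
          linarith
      _ = 1024 * (1 + s) * (T₂ + 2 ^ s') := by ring
  have hsum0 : 0 ≤ ∑ n ∈ Icc 1 M, cof Z l' n ^ 2 := sum_nonneg fun _ _ => by positivity
  have e7 : ∫ t in (-T₂)..T₂, ‖DX χ (cof Z l') M t‖ ^ 2 ≤
      C2 * (1024 * (1 + s) * (T₂ + 2 ^ s')) * (CC * 2 ^ s' * (1 + s) ^ CC) := by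
    refine e3.trans ?_
    apply mul_le_mul _ e4 hsum0 (by positivity)
    exact mul_le_mul_of_nonneg_left e6 hC2.le
  have hS0 : (0 : ℝ) ≤ siz l := Nat.cast_nonneg _
  have hsl : s ≤ (siz l : ℝ) := by
    rw [hs]
    exact_mod_cast (by omega : s' ≤ siz l)
  have e8 : (1 + s) ^ (CC + 1) ≤ (1 + (siz l : ℝ)) ^ (⌈1024 * C2 * CC⌉₊ + (CC + 1)) := by
    calc (1 + s) ^ (CC + 1) ≤ (1 + (siz l : ℝ)) ^ (CC + 1) :=
          pow_le_pow_left₀ (by linarith) (by linarith) _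
      _ ≤ (1 + (siz l : ℝ)) ^ (⌈1024 * C2 * CC⌉₊ + (CC + 1)) :=
          pow_le_pow_right₀ (by linarith) (by omega)
  have e9 : 1024 * C2 * CC ≤ ((⌈1024 * C2 * CC⌉₊ + (CC + 1) : ℕ) : ℝ) := by
    push_cast
    have := Nat.le_ceil (1024 * C2 * (CC : ℝ))
    have : (0 : ℝ) ≤ CC := Nat.cast_nonneg _
    linarith
  rw [intervalIntegral.integral_const_mul] at e1
  calc ∫ t in T₁..T₂, ‖DX χ (cof Z l) (2 ^ (siz l + l.length)) t‖ ^ 2
      ≤ U ^ 2 * ∫ t in T₁..T₂, ‖DX χ (cof Z l') M t‖ ^ 2 := e1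
    _ ≤ U ^ 2 * (C2 * (1024 * (1 + s) * (T₂ + 2 ^ s')) * (CC * 2 ^ s' * (1 + s) ^ CC)) := by
        apply mul_le_mul_of_nonneg_left (e2.trans e7) (by positivity)
    _ = (1024 * C2 * CC) * U ^ 2 * (T₂ + 2 ^ s') * 2 ^ s' * (1 + s) ^ (CC + 1) := by ring
    _ ≤ ((⌈1024 * C2 * CC⌉₊ + (CC + 1) : ℕ) : ℝ) * U ^ 2 * (T₂ + 2 ^ s') * 2 ^ s' *
        (1 + (siz l : ℝ)) ^ (⌈1024 * C2 * CC⌉₊ + (CC + 1)) := by
        apply mul_le_mul _ e8 (by positivity) (by positivity)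
        apply mul_le_mul_of_nonneg_right _ (by positivity)
        apply mul_le_mul_of_nonneg_right _ (by positivity)
        apply mul_le_mul_of_nonneg_right e9 (by positivity)

end Pool.Agent.NRW
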