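import Pool.Agent.NRW.St

set_option autoImplicit false

/-!
# NRW / WSm: primes in a residue class, mean square of the short averages
-/

namespace Pool.Agent.NRW

open Finset Filter
open Pool.Agent.GBQ (lam)
open Pool.Agent.SI (IsW Wd)

theorem wsm_num {X L b₁ b₂ : ℝ} {A : ℕ} (hL : 4 ≤ L) (h1 : b₁ ≤ X ^ 2 / L ^ (A + 1))
    (h2 : b₂ ≤ (2 * X / L ^ (A + 1)) ^ 2) : 2 * b₁ + 2 * b₂ ≤ X ^ 2 / L ^ A := by
  have hL0 : 0 < L := by linarith
  have hL1 : 1 ≤ L ^ A := one_le_pow₀ (by linarith)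
  have e1 : X ^ 2 / L ^ (A + 1) = X ^ 2 / L ^ A * (1 / L) := by
    rw [pow_succ L A, ← div_div]
    ring
  have e2 : (2 * X / L ^ (A + 1)) ^ 2 = X ^ 2 / L ^ A * (4 / (L ^ A * L ^ 2)) := by
    rw [pow_succ]
    field_simp
    ring
  have h0 : 0 ≤ X ^ 2 / L ^ A := by positivity
  have h3 : 1 / L ≤ 1 / 4 := one_div_le_one_div_of_le (by norm_num) hL
  have h4 : 4 / (L ^ A * L ^ 2) ≤ 1 / 4 := by
    rw [div_le_div_iff₀ (by positivity) (by norm_num)]
    have : 16 ≤ L ^ 2 := by nlinarith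
    nlinarith
  have h5 := mul_le_mul_of_nonneg_left h3 h0
  have h6 := mul_le_mul_of_nonneg_left h4 h0
  rw [e1] at h1
  rw [e2] at h2
  linarith

theorem thm_WSm (hV : St_WVar) (hL : St_WLong) : St_WSm := by
  intro w hw A D
  obtain ⟨B₀, hB₀1, hB₀⟩ := hV w hw (A + 1) D
  obtain ⟨B, hB⟩ : ∃ B : ℕ, B = max B₀ (A + 3) := ⟨_, rfl⟩
  obtain ⟨X₁, h1⟩ := hB₀ B (by rw [hB]; exact le_max_left _ _)
  obtain ⟨X₂, h2⟩ := hL w hw (A + 1) D B
  refine ⟨max (max X₁ X₂) ⌈Real.exp 4⌉₊, ?_⟩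
  intro X q b hX hq hqD hbq δ hδ1 hδ2
  have hX₁X : X₁ ≤ X := ((le_max_left _ _).trans (le_max_left _ _)).trans hX
  have hX₂X : X₂ ≤ X := ((le_max_right _ _).trans (le_max_left _ _)).trans hX
  have hXe : Real.exp 4 ≤ X := (Nat.le_ceil _).trans (by exact_mod_cast (le_max_right _ _).trans hX)
  have hX5 : (5 : ℝ) ≤ X := by
    have := Real.add_one_le_exp (4 : ℝ)
    linarith
  have hX0 : (0 : ℝ) < X := by linarith
  have hL4 : 4 ≤ Real.log X := by
    have : Real.log (Real.exp 4) ≤ Real.log X := Real.log_le_log (Real.exp_pos 4) hXe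
    rwa [Real.log_exp] at this
  have hvar := h1 X q b hX₁X hq hqD hbq δ hδ1 hδ2
  have hlong := h2 X q b hX₂X hq hqD hbq
  set L := Real.log (X : ℝ) with hLdef
  set δ₁ : ℝ := 1 / L ^ B with hδ₁
  set f : ℝ → ℝ := fun y => ∑ n ∈ Icc X (3 * X), ci q b lam n *
    (Wd w δ (Real.log n - y) - Wd w δ₁ (Real.log n - y)) with hf
  set g : ℝ → ℝ := fun y => ∑ n ∈ Icc X (3 * X), ci q b lam n * Wd w δ₁ (Real.log n - y) -
    Real.exp y / (q.totient : ℝ) with hg
  have hwc : Continuous w := hw.smooth.continuous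
  have hfc : Continuous f := by
    rw [hf]
    unfold Wd
    fun_prop
  have hgc : Continuous g := by
    rw [hg]
    unfold Wd
    fun_prop
  have hle : L ≤ Real.log (5 * X / 2) := Real.log_le_log hX0 (by linarith)
  have hlen : Real.log (5 * X / 2) - L ≤ 1 := by
    have e1 : (5 * (X : ℝ) / 2) = (5 / 2) * X := by ring
    rw [e1, Real.log_mul (by norm_num) hX0.ne']
    have e2 : Real.log (5 / 2) ≤ 1 := by
      rw [Real.log_le_iff_le_exp (by norm_num)]
      have := Real.exp_one_gt_d9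
      linarith
    linarith
  have hsum : ∀ y : ℝ, ∑ n ∈ Icc X (3 * X), ci q b lam n * Wd w δ (Real.log n - y) -
      Real.exp y / (q.totient : ℝ) = f y + g y := by
    intro y
    rw [hf, hg]
    simp only [mul_sub, sum_sub_distrib]
    ring
  have hLp : 0 < L := by linarith
  have hgb : ∀ y : ℝ, L ≤ y → y ≤ Real.log (5 * X / 2) → g y ^ 2 ≤ (2 * X / L ^ (A + 1)) ^ 2 := by
    intro y hy1 hy2
    have e1 : |g y| ≤ X / L ^ (A + 1) + 10 * X / L ^ B := hlong y hy1 hy2
    have e2 : 10 * X / L ^ B ≤ X / L ^ (A + 1) := by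
      have e3 : L ^ (A + 3) ≤ L ^ B := pow_le_pow_right₀ (by linarith) (by rw [hB]; exact le_max_right _ _)
      have e4 : 10 * (X : ℝ) / L ^ B ≤ 10 * X / L ^ (A + 3) :=
        div_le_div_of_nonneg_left (by positivity) (by positivity) e3
      refine e4.trans ?_
      rw [div_le_div_iff₀ (by positivity) (by positivity)]
      have e5 : L ^ (A + 3) = L ^ (A + 1) * L ^ 2 := by rw [← pow_add]
      rw [e5]
      have e6 : (10 : ℝ) ≤ L ^ 2 := by nlinarith
      have e7 : 0 ≤ (X : ℝ) * L ^ (A + 1) := by positivity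
      nlinarith
    rw [← sq_abs]
    refine pow_le_pow_left₀ (abs_nonneg _) ?_ 2
    have e3 : 2 * (X : ℝ) / L ^ (A + 1) = X / L ^ (A + 1) + X / L ^ (A + 1) := by ring
    linarith
  have hI1 : ∫ y in L..(Real.log (5 * X / 2)), (f y) ^ 2 ≤ X ^ 2 / L ^ (A + 1) := hvar
  have hI2 : ∫ y in L..(Real.log (5 * X / 2)), (g y) ^ 2 ≤ (2 * X / L ^ (A + 1)) ^ 2 := by
    have e1 : ∫ y in L..(Real.log (5 * X / 2)), (g y) ^ 2 ≤
        ∫ _y in L..(Real.log (5 * X / 2)), (2 * (X : ℝ) / L ^ (A + 1)) ^ 2 :=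
      intervalIntegral.integral_mono_on hle ((hgc.pow 2).intervalIntegrable _ _)
        (continuous_const.intervalIntegrable _ _) fun y hy => hgb y hy.1 hy.2
    refine e1.trans ?_
    rw [intervalIntegral.integral_const, smul_eq_mul]
    exact mul_le_of_le_one_left (sq_nonneg _) hlen
  have hmain : ∫ y in L..(Real.log (5 * X / 2)), (∑ n ∈ Icc X (3 * X), ci q b lam n *
      Wd w δ (Real.log n - y) - Real.exp y / (q.totient : ℝ)) ^ 2 ≤
      ∫ y in L..(Real.log (5 * X / 2)), (2 * (f y) ^ 2 + 2 * (g y) ^ 2) := by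
    refine intervalIntegral.integral_mono_on hle ?_ ?_ fun y _ => ?_
    · have e1 : Continuous fun y : ℝ => (∑ n ∈ Icc X (3 * X), ci q b lam n *
          Wd w δ (Real.log n - y) - Real.exp y / (q.totient : ℝ)) ^ 2 := by
        unfold Wd
        fun_prop
      exact e1.intervalIntegrable _ _
    · exact (((hfc.pow 2).const_mul 2).add ((hgc.pow 2).const_mul 2)).intervalIntegrable _ _
    · rw [hsum y]
      nlinarith [sq_nonneg (f y - g y)]
  refine hmain.trans ?_
  have hf2 : Continuous fun y : ℝ => 2 * (f y) ^ 2 := continuous_const.mul (hfc.pow 2)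
  have hg2 : Continuous fun y : ℝ => 2 * (g y) ^ 2 := continuous_const.mul (hgc.pow 2)
  have hadd : ∫ y in L..(Real.log (5 * X / 2)), (2 * (f y) ^ 2 + 2 * (g y) ^ 2) =
      2 * (∫ y in L..(Real.log (5 * X / 2)), (f y) ^ 2) +
        2 * (∫ y in L..(Real.log (5 * X / 2)), (g y) ^ 2) := by
    rw [intervalIntegral.integral_add (hf2.intervalIntegrable _ _) (hg2.intervalIntegrable _ _),
      intervalIntegral.integral_const_mul, intervalIntegral.integral_const_mul]
  rw [hadd]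
  exact wsm_num hL4 hI1 hI2

end Pool.Agent.NRW
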