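import Pool.Agent.NRW.St
import Pool.Agent.SI.Var
import Pool.Agent.SI.Four

set_option autoImplicit false

/-!
# NRW, module WVar: sum over the boxes
-/

namespace Pool.Agent.NRW

open Finset Filter
open Pool.Agent.GBQ (lam)
open Pool.Agent.SI (nit DP fac cof siz IsW Wd)

/-- where the weights live -/
private theorem WVar_supp (w : ℝ → ℝ) (hw : IsW w) (X n : ℕ) (hX : 1 ≤ X) (δ δ' y : ℝ)
    (h1 : 0 < δ) (h2 : 0 < δ') (h1' : δ ≤ 1 / 6) (h2' : δ' ≤ 1 / 6) (hy : Real.log X ≤ y)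
    (hy' : y ≤ Real.log (5 * X / 2))
    (h : Wd w δ (Real.log n - y) - Wd w δ' (Real.log n - y) ≠ 0) : X ≤ n ∧ n ≤ 3 * X := by
  have hXR : (1 : ℝ) ≤ X := by exact_mod_cast hX
  have hlX : 0 ≤ Real.log X := Real.log_nonneg hXR
  have key : ∀ d : ℝ, 0 < d → d ≤ 1 / 6 → Wd w d (Real.log n - y) ≠ 0 →
      0 < Real.log n - y ∧ Real.log n - y < 1 / 6 := by
    intro d hd hd' hne
    unfold Wd at hne
    have : w ((Real.log n - y) / d) ≠ 0 := by
      intro h0
      rw [h0] at hne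
      simp at hne
    obtain ⟨k1, k2⟩ := hw.supp _ this
    rw [lt_div_iff₀ hd, zero_mul] at k1
    rw [div_lt_one hd] at k2
    exact ⟨k1, by linarith⟩
  have hb : 0 < Real.log n - y ∧ Real.log n - y < 1 / 6 := by
    by_cases c : Wd w δ (Real.log n - y) = 0
    · have : Wd w δ' (Real.log n - y) ≠ 0 := by
        intro h0
        rw [c, h0, sub_zero] at h
        exact h rfl
      exact key δ' h2 h2' this
    · exact key δ h1 h1' c
  have hn0 : n ≠ 0 := by
    rintro rfl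
    simp only [Nat.cast_zero, Real.log_zero] at hb
    linarith
  have hn : (0 : ℝ) < n := by exact_mod_cast Nat.pos_of_ne_zero hn0
  constructor
  · by_contra hlt
    push Not at hlt
    have : Real.log n ≤ Real.log X := Real.log_le_log hn (by exact_mod_cast hlt.le)
    linarith
  · by_contra hlt
    push Not at hlt
    have e1 : Real.log (3 * X) ≤ Real.log n :=
      Real.log_le_log (by positivity) (by exact_mod_cast hlt.le)
    have e2 : Real.log (3 * X) = Real.log (6 / 5) + Real.log (5 * X / 2) := by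
      rw [← Real.log_mul (by norm_num) (by positivity)]
      congr 1
      ring
    have e3 : (1 / 6 : ℝ) ≤ Real.log (6 / 5) := by
      have := Real.one_sub_inv_le_log_of_pos (by norm_num : (0 : ℝ) < 6 / 5)
      norm_num at this ⊢
      linarith
    linarith

/-- the decomposition of the sum, in a residue class -/
private theorem WVar_decomp (h2 : SI.St_Cof) (X Z q b : ℕ) (hX : 1 ≤ X)
    (L : Finset (List (ℕ × ℕ)))
    (a : List (ℕ × ℕ) → ℝ) (K : ℕ → ℝ) (hK : ∀ n, K n ≠ 0 → X ≤ n ∧ n ≤ 3 * X)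
    (hv : ∀ n : ℕ, X ≤ n → n ≤ 3 * X →
      ArithmeticFunction.vonMangoldt n = ∑ l ∈ L, a l * cof Z l n) :
    ∑ n ∈ Icc X (3 * X), ci q b lam n * K n =
      ∑ l ∈ L, a l * ∑ n ∈ Icc 1 (2 ^ (siz l + l.length)), ci q b (cof Z l) n * K n := by
  have key : ∀ (c : ℕ → ℝ) (n : ℕ), ci q b c n * K n =
      c n * (if n % q = b % q then K n else 0) := by
    intro c n
    unfold ci
    split_ifs <;> ring
  have h := SI.var_decomp h2 X Z hX L a (fun n => if n % q = b % q then K n else 0) (by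
    intro n hn
    refine hK n ?_
    intro h0
    apply hn
    simp only [h0, ite_self]) hv
  simp only [key]
  exact h

/-- sum over the boxes -/
theorem thm_WVar (hB : SI.St_Box) (hO : St_WOne) (hCof : SI.St_Cof) : St_WVar := by
  intro w hw A D
  obtain ⟨C, hBox⟩ := hB
  obtain ⟨B₀, hB01, hone⟩ := hO w hw (A + 17) D
  refine ⟨B₀, hB01, ?_⟩
  intro B hB
  obtain ⟨X₀', hone⟩ := hone B hB
  have hB1 : 1 ≤ B := hB01.trans hB
  have ev : ∀ᶠ X : ℕ in atTop, X₀' ≤ X ∧ 64 ≤ X ∧ 6 ≤ Real.log X ∧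
      (C : ℝ) ^ 4 * 2 ^ 16 ≤ Real.log X := by
    filter_upwards [eventually_ge_atTop X₀', eventually_ge_atTop 64, SI.var_log_large 6,
      SI.var_log_large ((C : ℝ) ^ 4 * 2 ^ 16)] with X a1 a2 a3 a4
    exact ⟨a1, a2, a3, a4⟩
  obtain ⟨X₀, hX₀⟩ := eventually_atTop.mp ev
  refine ⟨X₀, ?_⟩
  intro X q b hX hq1 hqD hbq δ hδl hδu
  obtain ⟨b1, b2, b3, b4⟩ := hX₀ X hX
  set Lg := Real.log X with hLg
  have hXR : (64 : ℝ) ≤ X := by exact_mod_cast b2
  have hX0 : (0 : ℝ) < X := by linarith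
  have hX1 : (1 : ℝ) ≤ X := by linarith
  have hL0 : 0 < Lg := by linarith
  have hL1 : 1 ≤ Lg := by linarith
  set δ₁ : ℝ := 1 / Lg ^ B with hδ₁
  have hδ0 : 0 < δ := lt_of_lt_of_le (Real.rpow_pos_of_pos hX0 _) hδl
  have hδ₁0 : 0 < δ₁ := by positivity
  have hδ3 : δ ≤ 1 / 6 := by
    calc δ ≤ (X : ℝ) ^ (-(9 / 20) : ℝ) := hδu
      _ ≤ (64 : ℝ) ^ (-(9 / 20) : ℝ) := Real.rpow_le_rpow_of_nonpos (by norm_num) hXR (by norm_num)
      _ = (2 : ℝ) ^ (-(27 / 10) : ℝ) := by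
        rw [show (64 : ℝ) = (2 : ℝ) ^ (6 : ℝ) by norm_num, ← Real.rpow_mul (by norm_num)]
        norm_num
      _ ≤ 1 / 6 := by
        rw [Real.rpow_neg (by norm_num), ← one_div]
        apply one_div_le_one_div_of_le (by norm_num)
        have h6 : ((6 : ℝ) ^ (10 : ℕ)) ≤ ((2 : ℝ) ^ (27 / 10 : ℝ)) ^ (10 : ℕ) := by
          rw [← Real.rpow_natCast ((2 : ℝ) ^ (27 / 10 : ℝ)) 10, ← Real.rpow_mul (by norm_num)]
          norm_num
        exact le_of_pow_le_pow_left₀ (by norm_num) (by positivity) h6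
  have hδ₁3 : δ₁ ≤ 1 / 6 := by
    apply one_div_le_one_div_of_le (by norm_num)
    calc (6 : ℝ) ≤ Lg := b3
      _ = Lg ^ 1 := (pow_one _).symm
      _ ≤ Lg ^ B := pow_le_pow_right₀ hL1 hB1
  obtain ⟨Z, L, a, hZ, hLc, hL, hv⟩ := hBox X (by omega)
  let f : List (ℕ × ℕ) → ℝ → ℝ := fun l y =>
    ∑ n ∈ Icc 1 (2 ^ (siz l + l.length)), ci q b (cof Z l) n *
      (Wd w δ (Real.log n - y) - Wd w δ₁ (Real.log n - y))
  have hfi : ∀ l, MeasureTheory.Integrable (fun y => f l y ^ 2) := fun l =>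
    ((SI.thm_Four w hw).1 (ci q b (cof Z l)) (2 ^ (siz l + l.length)) δ δ₁ hδ0 hδ₁0).1
  have hfb : ∀ l ∈ L, ∫ y, f l y ^ 2 ≤ X ^ 2 / Lg ^ (A + 17) := by
    intro l hl
    obtain ⟨-, g1, g2, g3, g4, g5⟩ := hL l hl
    exact hone X Z q b b1 hq1 hqD hbq hZ l g1 g2 g3 g4 g5 δ hδl hδu
  have hkey : ∀ y : ℝ, Lg ≤ y → y ≤ Real.log (5 * X / 2) →
      (∑ n ∈ Icc X (3 * X), ci q b lam n *
        (Wd w δ (Real.log n - y) - Wd w δ₁ (Real.log n - y))) ^ 2 ≤
      (L.card * (C : ℝ) ^ 2) * ∑ l ∈ L, f l y ^ 2 := by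
    intro y hy hy'
    rw [WVar_decomp hCof X Z q b (by omega) L a
      (fun n => Wd w δ (Real.log n - y) - Wd w δ₁ (Real.log n - y))
      (fun n hn => WVar_supp w hw X n (by omega) δ δ₁ y hδ0 hδ₁0 hδ3 hδ₁3 hy hy' hn) hv]
    refine (Finset.sum_mul_sq_le_sq_mul_sq L a (fun l => f l y)).trans ?_
    gcongr
    calc ∑ l ∈ L, a l ^ 2 ≤ ∑ _l ∈ L, (C : ℝ) ^ 2 := by
          refine Finset.sum_le_sum fun l hl => ?_
          rw [← sq_abs]
          have := (hL l hl).1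
          gcongr
      _ = L.card * (C : ℝ) ^ 2 := by rw [Finset.sum_const, nsmul_eq_mul]
  have hlog : Real.log X ≤ Real.log (5 * X / 2) := Real.log_le_log hX0 (by linarith)
  rw [intervalIntegral.integral_of_le hlog]
  have hG : MeasureTheory.Integrable (fun y => (L.card * (C : ℝ) ^ 2) * ∑ l ∈ L, f l y ^ 2) :=
    (MeasureTheory.integrable_finsetSum _ fun l _ => hfi l).const_mul _
  calc ∫ y in Set.Ioc (Real.log X) (Real.log (5 * X / 2)),
        (∑ n ∈ Icc X (3 * X), ci q b lam n *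
          (Wd w δ (Real.log n - y) - Wd w δ₁ (Real.log n - y))) ^ 2
      ≤ ∫ y in Set.Ioc (Real.log X) (Real.log (5 * X / 2)),
          (L.card * (C : ℝ) ^ 2) * ∑ l ∈ L, f l y ^ 2 := by
        refine MeasureTheory.integral_mono_of_nonneg (Eventually.of_forall fun y => sq_nonneg _)
          hG.integrableOn ?_
        refine MeasureTheory.ae_restrict_of_forall_mem measurableSet_Ioc fun y hy => ?_
        exact hkey y hy.1.le hy.2
    _ ≤ ∫ y, (L.card * (C : ℝ) ^ 2) * ∑ l ∈ L, f l y ^ 2 :=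
        MeasureTheory.setIntegral_le_integral hG (Eventually.of_forall fun y => by positivity)
    _ = (L.card * (C : ℝ) ^ 2) * ∑ l ∈ L, ∫ y, f l y ^ 2 := by
        rw [MeasureTheory.integral_const_mul, MeasureTheory.integral_finsetSum _ fun l _ => hfi l]
    _ ≤ (L.card * (C : ℝ) ^ 2) * (L.card * (X ^ 2 / Lg ^ (A + 17))) := by
        gcongr
        refine (Finset.sum_le_sum hfb).trans (le_of_eq ?_)
        rw [Finset.sum_const, nsmul_eq_mul]
    _ ≤ ((C * (2 * Lg) ^ 8) * (C : ℝ) ^ 2) * ((C * (2 * Lg) ^ 8) * (X ^ 2 / Lg ^ (A + 17))) := by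
        have : (L.card : ℝ) ≤ C * (2 * Lg) ^ 8 := by
          refine hLc.trans ?_
          gcongr
          linarith
        gcongr
    _ = (C : ℝ) ^ 4 * 2 ^ 16 * (X ^ 2 / Lg ^ (A + 1)) := by
        have : Lg ^ (A + 17) = Lg ^ (A + 1) * Lg ^ 16 := by rw [← pow_add]
        rw [this]
        field_simp
    _ ≤ Lg * (X ^ 2 / Lg ^ (A + 1)) := by gcongr
    _ = X ^ 2 / Lg ^ A := by
        field_simp
        ring

end Pool.Agent.NRW
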